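import Pool.Agent.Voisin60.Final

noncomputable section

namespace Pool.Agent.Voisin60

variable {F : MvPolynomial (Fin 3) ℂ}

/-- The bilinear extension of a function of two points. -/
def pairing {α A : Type} [AddCommGroup A] (g : α → α → A) (a b : α →₀ ℤ) : A :=
  a.sum fun x m => b.sum fun y n => (m * n) • g x y

section
variable {α A : Type} [AddCommGroup A]

lemma pairing_map (f f' : α → α) (g : α → α → A) (a b : α →₀ ℤ) :
    pairing g (Finsupp.mapDomain f a) (Finsupp.mapDomain f' b)
      = pairing (fun x y => g (f x) (f' y)) a b := by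
  unfold pairing
  rw [Finsupp.sum_mapDomain_index]
  · refine Finsupp.sum_congr fun x _ => ?_
    rw [Finsupp.sum_mapDomain_index]
    · intro y; simp
    · intro y m n; rw [mul_add, add_smul]
  · intro x; simp
  · intro x m n
    rw [← Finsupp.sum_add]
    refine Finsupp.sum_congr fun y _ => ?_
    rw [add_mul, add_smul]

lemma pairing_add (g h : α → α → A) (a b : α →₀ ℤ) :
    pairing (fun x y => g x y + h x y) a b = pairing g a b + pairing h a b := by
  unfold pairing
  rw [← Finsupp.sum_add]
  refine Finsupp.sum_congr fun x _ => ?_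
  rw [← Finsupp.sum_add]
  refine Finsupp.sum_congr fun y _ => ?_
  simp only [smul_add]

lemma pairing_nsmul (k : ℕ) (g : α → α → A) (a b : α →₀ ℤ) :
    pairing (fun x y => k • g x y) a b = k • pairing g a b := by
  induction k with
  | zero =>
    simp only [zero_nsmul]
    unfold pairing
    simp
  | succ k ih =>
    simp only [succ_nsmul]
    rw [pairing_add, ih]

lemma pairing_left (h : α → A) (a b : α →₀ ℤ) (ha : deg a = 0) :
    pairing (fun _ y => h y) a b = 0 := by
  unfold pairing
  have this : ∀ m : ℤ, (b.sum fun y n => (m * n) • h y) = m • (b.sum fun y n => n • h y) := by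
    intro m
    rw [Finsupp.smul_sum]
    refine Finsupp.sum_congr fun y _ => ?_
    rw [mul_smul]
  have h2 : (a.sum fun _ m => b.sum fun y n => (m * n) • h y)
      = a.sum fun _ m => m • (b.sum fun y n => n • h y) :=
    Finsupp.sum_congr fun x _ => this (a x)
  rw [h2]
  unfold deg at ha
  unfold Finsupp.sum at ha ⊢
  rw [← Finset.sum_smul, ha, zero_smul]

lemma pairing_right (h : α → A) (a b : α →₀ ℤ) (hb : deg b = 0) :
    pairing (fun x _ => h x) a b = 0 := by
  unfold pairing
  unfold deg at hb
  unfold Finsupp.sum at hb ⊢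
  apply Finset.sum_eq_zero
  intro x _
  have this : ∀ y ∈ b.support, (a x * b y) • h x = b y • (a x • h x) := by
    intro y _
    rw [← mul_smul, mul_comm]
  have hb' : ∑ y ∈ b.support, b y = 0 := hb
  have h3 := Finset.sum_congr (rfl : b.support = b.support) this
  have h4 : ∑ y ∈ b.support, b y • (a x • h x) = 0 := by
    rw [← Finset.sum_smul, hb', zero_smul]
  exact h3.trans h4

lemma deg_map (f : α → α) (a : α →₀ ℤ) : deg (Finsupp.mapDomain f a) = deg a := by
  unfold deg
  rw [Finsupp.sum_mapDomain_index]
  · intro _; rfl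
  · intro _ _ _; rfl

end

lemma mk_cross (a b : Pt F →₀ ℤ) :
    (QuotientAddGroup.mk (cross a b) : CH F) = pairing e a b := by
  have h : (QuotientAddGroup.mk (cross a b) : CH F)
      = QuotientAddGroup.mk' (RatEquiv F) (cross a b) := rfl
  rw [h, cross, pairing, map_finsuppSum]
  refine Finsupp.sum_congr fun x _ => ?_
  rw [map_finsuppSum]
  refine Finsupp.sum_congr fun y _ => ?_
  have : Finsupp.single (x, y) (a x * b y) = (a x * b y) • Finsupp.single (x, y) (1 : ℤ) := by
    simp
  rw [this, map_zsmul]
  rfl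

lemma tt_P (hodd : IsOddForm F) {u : Fin 4 → ℂ} (hu : OnPlane F u) :
    tPt hodd (tPt hodd (P F u)) = P F (neg3 u) := by
  rw [tPt_P hodd hu, tPt_P hodd (onPlane_tv hodd hu)]
  congr 1
  funext i
  fin_cases i <;> simp [tv, neg3]
  rw [← mul_assoc, Complex.I_mul_I]; ring

lemma two_left (hF : F.IsHomogeneous 5) (hodd : IsOddForm F) (a b : Pt F →₀ ℤ)
    (ha : deg a = 0) :
    (2 : ℕ) • (pairing e a b + pairing (fun x y => e (tPt hodd (tPt hodd x)) y) a b) = 0 := by
  rw [← pairing_add, ← pairing_nsmul]
  have : (fun x y : Pt F => (2 : ℕ) • (e x y + e (tPt hodd (tPt hodd x)) y))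
      = fun _ y => (4 : ℕ) • e (o F) y := by
    funext x y
    obtain ⟨u, hu, rfl⟩ := exists_rep x
    rw [tt_P hodd hu]
    exact (line_rel hF hu y).1
  rw [this]
  exact pairing_left _ a b ha

lemma two_right (hF : F.IsHomogeneous 5) (hodd : IsOddForm F) (a b : Pt F →₀ ℤ)
    (hb : deg b = 0) :
    (2 : ℕ) • (pairing e a b + pairing (fun x y => e x (tPt hodd (tPt hodd y))) a b) = 0 := by
  rw [← pairing_add, ← pairing_nsmul]
  have : (fun x y : Pt F => (2 : ℕ) • (e x y + e x (tPt hodd (tPt hodd y))))
      = fun x _ => (4 : ℕ) • e x (o F) := by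
    funext x y
    obtain ⟨u, hu, rfl⟩ := exists_rep y
    rw [tt_P hodd hu]
    exact (line_rel hF hu x).2
  rw [this]
  exact pairing_right _ a b hb

/-- `8 (a × b + t a × t b) = 0`. -/
lemma plus_rel (hF : F.IsHomogeneous 5) (hodd : IsOddForm F) (a b : Pt F →₀ ℤ)
    (ha : deg a = 0) (hb : deg b = 0) :
    (8 : ℕ) • (pairing e a b + pairing (fun x y => e (tPt hodd x) (tPt hodd y)) a b) = 0 := by
  set t := tPt hodd with ht
  have hG : (4 : ℕ) • pairing (G hodd) a b = 0 := by
    rw [← pairing_nsmul]
    have : (fun x y : Pt F => (4 : ℕ) • G hodd x y) = fun _ _ => (16 : ℕ) • e (o F) (o F) := by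
      funext x y
      exact orbit_const hF hodd x y
    rw [this]
    exact pairing_left _ a b ha
  have hG2 : pairing (G hodd) a b = pairing e a b + pairing (fun x y => e (t x) (t y)) a b
      + pairing (fun x y => e (t (t x)) (t (t y))) a b
      + pairing (fun x y => e (t (t (t x))) (t (t (t y)))) a b := by
    rw [← pairing_add, ← pairing_add, ← pairing_add]
    rfl
  -- `(i a) × (i b) = a × b` up to 2-torsion
  have key : ∀ a b : Pt F →₀ ℤ, deg a = 0 → deg b = 0 →
      (2 : ℕ) • pairing (fun x y => e (t (t x)) (t (t y))) a b = (2 : ℕ) • pairing e a b := by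
    intro a b ha hb
    have h1 := two_left hF hodd a (Finsupp.mapDomain (fun y => t (t y)) b) ha
    have h2 := two_right hF hodd a b hb
    have e1 : pairing e a (Finsupp.mapDomain (fun y => t (t y)) b)
        = pairing (fun x y => e x (t (t y))) a b := by
      have := pairing_map (fun x => x) (fun y => t (t y)) e a b
      rwa [show Finsupp.mapDomain (fun x : Pt F => x) a = a from Finsupp.mapDomain_id] at this
    have e2 : pairing (fun x y => e (tPt hodd (tPt hodd x)) y) a
        (Finsupp.mapDomain (fun y => t (t y)) b)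
        = pairing (fun x y => e (t (t x)) (t (t y))) a b := by
      have := pairing_map (fun x => x) (fun y => t (t y))
        (fun x y => e (tPt hodd (tPt hodd x)) y) a b
      rwa [show Finsupp.mapDomain (fun x : Pt F => x) a = a from Finsupp.mapDomain_id] at this
    rw [e1, e2] at h1
    rw [nsmul_add] at h1 h2
    have h3 := eq_neg_of_add_eq_zero_right h1
    have h4 := eq_neg_of_add_eq_zero_right h2
    rw [h3]
    exact (neg_eq_iff_eq_neg.mpr h4)
  have k1 := key a b ha hb
  have k2 := key (Finsupp.mapDomain t a) (Finsupp.mapDomain t b) (by rw [deg_map]; exact ha)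
    (by rw [deg_map]; exact hb)
  rw [pairing_map, pairing_map] at k2
  rw [hG2] at hG
  have expand : (8 : ℕ) • (pairing e a b + pairing (fun x y => e (t x) (t y)) a b)
      = (4 : ℕ) • (pairing e a b + pairing (fun x y => e (t x) (t y)) a b
      + pairing (fun x y => e (t (t x)) (t (t y))) a b
      + pairing (fun x y => e (t (t (t x))) (t (t (t y)))) a b)
      - (2 : ℕ) • ((2 : ℕ) • pairing (fun x y => e (t (t x)) (t (t y))) a b
        - (2 : ℕ) • pairing e a b)
      - (2 : ℕ) • ((2 : ℕ) • pairing (fun x y => e (t (t (t x))) (t (t (t y)))) a b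
        - (2 : ℕ) • pairing (fun x y => e (t x) (t y)) a b) := by
    simp only [succ_nsmul, zero_nsmul]; abel
  rw [expand, hG, k1, k2]
  simp

/-- The main theorem. -/
theorem main (hF : F.IsHomogeneous 5) (hodd : IsOddForm F) (a b : Pt F →₀ ℤ)
    (ha : deg a = 0) (hb : deg b = 0) :
    (8 : ℕ) • (cross a (Finsupp.mapDomain (tPt hodd) b)
      - cross (Finsupp.mapDomain (tPt hodd) a) b) ∈ RatEquiv F := by
  set t := tPt hodd with ht
  rw [← QuotientAddGroup.eq_zero_iff]
  have h1 := plus_rel hF hodd a (Finsupp.mapDomain t b) ha (by rw [deg_map]; exact hb)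
  have h2 := two_right hF hodd (Finsupp.mapDomain t a) b hb
  have e1 : pairing (fun x y => e (tPt hodd x) (tPt hodd y)) a (Finsupp.mapDomain t b)
      = pairing (fun x y => e x (tPt hodd (tPt hodd y))) (Finsupp.mapDomain t a) b := by
    have A := pairing_map (fun x => x) t (fun x y => e (tPt hodd x) (tPt hodd y)) a b
    rw [show Finsupp.mapDomain (fun x : Pt F => x) a = a from Finsupp.mapDomain_id] at A
    have B := pairing_map t (fun y => y) (fun x y => e x (tPt hodd (tPt hodd y))) a b
    rw [show Finsupp.mapDomain (fun x : Pt F => x) b = b from Finsupp.mapDomain_id] at B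
    rw [A, B]
  rw [e1] at h1
  have hm : (QuotientAddGroup.mk ((8 : ℕ) • (cross a (Finsupp.mapDomain t b)
      - cross (Finsupp.mapDomain t a) b)) : CH F)
      = (8 : ℕ) • (pairing e a (Finsupp.mapDomain t b)
        - pairing e (Finsupp.mapDomain t a) b) := by
    rw [← mk_cross, ← mk_cross]
    rfl
  rw [hm]
  have expand : (8 : ℕ) • (pairing e a (Finsupp.mapDomain t b)
        - pairing e (Finsupp.mapDomain t a) b)
      = (8 : ℕ) • (pairing e a (Finsupp.mapDomain t b)
        + pairing (fun x y => e x (tPt hodd (tPt hodd y))) (Finsupp.mapDomain t a) b)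
      - (4 : ℕ) • ((2 : ℕ) • (pairing e (Finsupp.mapDomain t a) b
        + pairing (fun x y => e x (tPt hodd (tPt hodd y))) (Finsupp.mapDomain t a) b)) := by
    simp only [succ_nsmul, zero_nsmul]; abel
  rw [expand, h1, h2]
  simp

end Pool.Agent.Voisin60
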