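import Pool.Agent.Voisin60.Fam

noncomputable section

namespace Pool.Agent.Voisin60

open Polynomial

/-- The Chow group quotient. -/
abbrev CH (F : MvPolynomial (Fin 3) ℂ) := ((Pt F × Pt F) →₀ ℤ) ⧸ RatEquiv F

/-- The class of a point of the self-product. -/
def e {F : MvPolynomial (Fin 3) ℂ} (x y : Pt F) : CH F :=
  QuotientAddGroup.mk (Finsupp.single (x, y) (1 : ℤ))

lemma mk_cyc4 (F : MvPolynomial (Fin 3) ℂ) (V H : ℂ[X]) (x y : Half) (s : ℂ) :
    (QuotientAddGroup.mk (cyc4 F V H x y s) : CH F) =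
      ((quad (V.eval s) (H.eval s)).map fun a =>
        e (P F (x.pt s a.1 a.2)) (P F (y.pt s a.1 a.2))).sum := by
  unfold cyc4 e
  rw [quad_sum, quad_sum]
  rfl

/-- The rational equivalence of two members of a family, in the Chow group. -/
theorem family_eq {F : MvPolynomial (Fin 3) ℂ} (hF : F.IsHomogeneous 5) {V H : ℂ[X]}
    {x y : Half} (hx : x.Holds F V H) (hy : y.Holds F V H) {s t : ℂ}
    (xs : x.Good V s) (xt : x.Good V t) (ys : y.Good V s) (yt : y.Good V t) :
    ((quad (V.eval s) (H.eval s)).map fun a =>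
        e (P F (x.pt s a.1 a.2)) (P F (y.pt s a.1 a.2))).sum
      = ((quad (V.eval t) (H.eval t)).map fun a =>
        e (P F (x.pt t a.1 a.2)) (P F (y.pt t a.1 a.2))).sum := by
  rw [← mk_cyc4, ← mk_cyc4]
  have h := family_rel hF hx hy xs xt ys yt
  rw [QuotientAddGroup.eq]
  have : -cyc4 F V H x y s + cyc4 F V H x y t = -(cyc4 F V H x y s - cyc4 F V H x y t) := by
    abel
  rw [this]
  exact (RatEquiv F).neg_mem h

/-- The sum over `quad` does not depend on the choice of square roots. -/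
lemma quad_sum_eq {M : Type*} [AddCommMonoid M] {v h r ρ ρ' : ℂ} (hr : r ^ 2 = v)
    (h1 : ρ ^ 2 = r * h) (h2 : ρ' ^ 2 = -r * h) (g : ℂ × ℂ → M) :
    ((quad v h).map g).sum = g (r, ρ) + g (r, -ρ) + (g (-r, ρ') + g (-r, -ρ')) := by
  rw [quad_sum, ← add_assoc]
  have two : ∀ {z a b : ℂ}, a ^ 2 = z → b ^ 2 = z → a = b ∨ a = -b := by
    intro z a b ha hb
    exact sq_eq_sq_iff_eq_or_eq_neg.mp (ha.trans hb.symm)
  rcases two (sq_sq v) hr with hs | hs
  · rw [hs]
    rcases two (sq_sq (r * h)) h1 with a | a <;> rcases two (sq_sq (-r * h)) h2 with b | b <;>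
      rw [a, b] <;> (try simp only [neg_neg]) <;> (try abel)
  · rw [hs, neg_neg, add_comm]
    rcases two (sq_sq (r * h)) h1 with a | a <;> rcases two (sq_sq (-r * h)) h2 with b | b <;>
      rw [a, b] <;> (try simp only [neg_neg]) <;> (try abel)

/-- The constant half of a family. -/
def constHalf (u : Fin 4 → ℂ) : Half where
  p := ![C (u 0), C (u 1), C (u 2)]
  q := 0
  w := ![C (u 3), 0, 0]

lemma constHalf_pt (u : Fin 4 → ℂ) (s ζ υ : ℂ) : (constHalf u).pt s ζ υ = u := by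
  funext i
  fin_cases i <;> simp [constHalf, Half.pt]

lemma constHalf_holds {F : MvPolynomial (Fin 3) ℂ} {u : Fin 4 → ℂ} (hu : OnPlane F u)
    (V H : ℂ[X]) : (constHalf u).Holds F V H := by
  intro s ζ υ _ _
  rw [constHalf_pt]
  exact hu.2

lemma constHalf_good {F : MvPolynomial (Fin 3) ℂ} {u : Fin 4 → ℂ} (hu : OnPlane F u)
    (V : ℂ[X]) (s : ℂ) : (constHalf u).Good V s := by
  intro ζ _
  rw [constHalf_pt]
  exact hu.1

/-- Every point has a representative. -/
lemma exists_rep {F : MvPolynomial (Fin 3) ℂ} (x : Pt F) :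
    ∃ u : Fin 4 → ℂ, OnPlane F u ∧ x = P F u := by
  induction x using Quotient.inductionOn with
  | h u => exact ⟨u.1, u.2, (P_eq u.2).symm⟩

/-- A one-point family. -/
lemma one_family {F : MvPolynomial (Fin 3) ℂ} (hF : F.IsHomogeneous 5) {x : Half}
    (hx : x.Holds F 0 0) {s t : ℂ} (xs : x.Good 0 s) (xt : x.Good 0 t) (y : Pt F) :
    (4 : ℕ) • e (P F (x.pt s 0 0)) y = (4 : ℕ) • e (P F (x.pt t 0 0)) y ∧
    (4 : ℕ) • e y (P F (x.pt s 0 0)) = (4 : ℕ) • e y (P F (x.pt t 0 0)) := by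
  obtain ⟨u, hu, rfl⟩ := exists_rep y
  have h1 := family_eq hF hx (constHalf_holds hu 0 0) xs xt (constHalf_good hu 0 s)
    (constHalf_good hu 0 t)
  have h2 := family_eq hF (constHalf_holds hu 0 0) hx (constHalf_good hu 0 s)
    (constHalf_good hu 0 t) xs xt
  simp only [eval_zero, constHalf_pt] at h1 h2
  rw [quad_sum_eq (r := 0) (ρ := 0) (ρ' := 0) (by simp) (by simp) (by simp),
    quad_sum_eq (r := 0) (ρ := 0) (ρ' := 0) (by simp) (by simp) (by simp)] at h1 h2
  simp only [neg_zero] at h1 h2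
  constructor
  · calc _ = _ := ?_
      _ = _ := h1
      _ = _ := ?_
    all_goals (simp only [succ_nsmul, zero_nsmul]; abel)
  · calc _ = _ := ?_
      _ = _ := h2
      _ = _ := ?_
    all_goals (simp only [succ_nsmul, zero_nsmul]; abel)

/-- The base point `(1:0:0:0)` on the line `Z = 0`. -/
def o (F : MvPolynomial (Fin 3) ℂ) : Pt F := P F ![1, 0, 0, 0]

/-- The covering involution on vectors. -/
def neg3 (u : Fin 4 → ℂ) : Fin 4 → ℂ := ![u 0, u 1, u 2, -u 3]

lemma onPlane_neg3 {F : MvPolynomial (Fin 3) ℂ} {u : Fin 4 → ℂ} (hu : OnPlane F u) :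
    OnPlane F (neg3 u) := by
  refine ⟨by simpa [neg3] using hu.1, ?_⟩
  have := hu.2
  simp only [neg3, Matrix.cons_val, neg_sq]
  exact this

/-- The half used for the lines in the plane. -/
def lineHalf (u : Fin 4 → ℂ) : Half where
  p := ![(1 - X) * C (u 0) + X, (1 - X) * C (u 1), (1 - X) * C (u 2)]
  q := 0
  w := ![0, 1, 0]

/-- The discriminant polynomial along the line. -/
def lineV (F : MvPolynomial (Fin 3) ℂ) (u : Fin 4 → ℂ) : ℂ[X] :=
  ((1 - X) * C (u 2)) * MvPolynomial.aeval (lineHalf u).p F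

lemma eval_aeval (F : MvPolynomial (Fin 3) ℂ) (p : Fin 3 → ℂ[X]) (s : ℂ) :
    (MvPolynomial.aeval p F : ℂ[X]).eval s = MvPolynomial.eval (fun i => (p i).eval s) F := by
  induction F using MvPolynomial.induction_on with
  | C a => simp
  | add p q hp hq => simp [hp, hq]
  | mul_X p i hp => simp [hp]

lemma lineHalf_holds (F : MvPolynomial (Fin 3) ℂ) (u : Fin 4 → ℂ) :
    (lineHalf u).Holds F (lineV F u) 0 := by
  intro s ζ υ hz hu
  have e1 : (lineHalf u).pt s ζ υ 3 = ζ := by simp [Half.pt, lineHalf]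
  rw [e1, hz, lineV, eval_mul, eval_aeval]
  have e2 : (lineHalf u).pt s ζ υ 2 = ((1 - X) * C (u 2) : ℂ[X]).eval s := by
    simp [Half.pt, lineHalf]
  rw [e2]
  congr 3
  funext i
  fin_cases i <;> simp [Half.pt, lineHalf]

/-- L1: `2(x,y) + 2(ix,y) = 4 (o,y)`. -/
lemma line_rel {F : MvPolynomial (Fin 3) ℂ} (hF : F.IsHomogeneous 5) {u : Fin 4 → ℂ}
    (hu : OnPlane F u) (y : Pt F) :
    (2 : ℕ) • (e (P F u) y + e (P F (neg3 u)) y) = (4 : ℕ) • e (o F) y ∧
    (2 : ℕ) • (e y (P F u) + e y (P F (neg3 u))) = (4 : ℕ) • e y (o F) := by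
  obtain ⟨v, hv, rfl⟩ := exists_rep y
  have g0 : (lineHalf u).Good (lineV F u) 0 := by
    intro ζ _
    simpa [Half.pt, lineHalf] using hu.1
  have g1 : (lineHalf u).Good (lineV F u) 1 := by
    intro ζ _
    simp [Half.pt, lineHalf]
  have h1 := family_eq hF (lineHalf_holds F u) (constHalf_holds hv (lineV F u) 0) g0 g1
    (constHalf_good hv _ 0) (constHalf_good hv _ 1)
  have h2 := family_eq hF (constHalf_holds hv (lineV F u) 0) (lineHalf_holds F u)
    (constHalf_good hv _ 0) (constHalf_good hv _ 1) g0 g1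
  have v0 : (u 3) ^ 2 = (lineV F u).eval 0 := by
    rw [hu.2, lineV, eval_mul, eval_aeval]
    simp only [eval_mul, eval_sub, eval_one, eval_X, eval_C, sub_zero, one_mul]
    congr 3
    funext i
    fin_cases i <;> simp [lineHalf]
  have v1 : (0 : ℂ) ^ 2 = (lineV F u).eval 1 := by
    rw [lineV, eval_mul]
    simp
  simp only [eval_zero, constHalf_pt] at h1 h2
  rw [quad_sum_eq (r := u 3) (ρ := 0) (ρ' := 0) v0 (by simp) (by simp),
    quad_sum_eq (r := 0) (ρ := 0) (ρ' := 0) v1 (by simp) (by simp)] at h1 h2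
  have p1 : (lineHalf u).pt 0 (u 3) 0 = u := by
    funext i; fin_cases i <;> simp [Half.pt, lineHalf]
  have p2 : (lineHalf u).pt 0 (-u 3) 0 = neg3 u := by
    funext i; fin_cases i <;> simp [Half.pt, lineHalf, neg3]
  have p3 : (lineHalf u).pt 1 0 0 = ![1, 0, 0, 0] := by
    funext i; fin_cases i <;> simp [Half.pt, lineHalf]
  simp only [neg_zero, p1, p2, p3] at h1 h2
  constructor
  · calc _ = _ := ?_
      _ = _ := h1
      _ = _ := ?_
    all_goals (simp only [o, succ_nsmul, zero_nsmul]; abel)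
  · calc _ = _ := ?_
      _ = _ := h2
      _ = _ := ?_
    all_goals (simp only [o, succ_nsmul, zero_nsmul]; abel)

/-- `x` is, up to 4-torsion, equivalent to the base point, in both factors. -/
def Triv {F : MvPolynomial (Fin 3) ℂ} (x : Pt F) : Prop :=
  ∀ y : Pt F, (4 : ℕ) • e x y = (4 : ℕ) • e (o F) y ∧ (4 : ℕ) • e y x = (4 : ℕ) • e y (o F)

lemma triv_of_zero {F : MvPolynomial (Fin 3) ℂ} (hF : F.IsHomogeneous 5) {u : Fin 4 → ℂ}
    (hu : OnPlane F u) (h3 : u 3 = 0) : Triv (P F u) := by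
  intro y
  have h := line_rel hF hu y
  have hn : neg3 u = u := by
    funext i; fin_cases i <;> simp [neg3, h3]
  rw [hn] at h
  constructor
  · rw [← h.1]; simp only [succ_nsmul, zero_nsmul]; abel
  · rw [← h.2]; simp only [succ_nsmul, zero_nsmul]; abel

end Pool.Agent.Voisin60
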