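import Mathlib

/-!
# Common zeros of `n` polynomials in `n + 1` variables

`n` polynomials in `n + 1` complex variables which vanish at the origin have another common zero.
-/

namespace Pool.Agent.Voisin60

open MvPolynomial

/-- the translation `X i ↦ X i + x i` -/
noncomputable def transl {n : ℕ} (x : Fin n → ℂ) :
    MvPolynomial (Fin n) ℂ →ₐ[ℂ] MvPolynomial (Fin n) ℂ :=
  MvPolynomial.aeval (fun i => X i + C (x i))

theorem transl_transl {n : ℕ} (x y : Fin n → ℂ) (h : ∀ i, x i + y i = 0) :
    (transl x).comp (transl y) = AlgHom.id ℂ _ := by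
  apply MvPolynomial.algHom_ext
  intro i
  simp only [transl, AlgHom.comp_apply, aeval_X, map_add, AlgHom.id_apply]
  rw [show (C (y i) : MvPolynomial (Fin n) ℂ) = algebraMap ℂ _ (y i) from rfl, AlgHom.commutes]
  rw [MvPolynomial.algebraMap_eq, add_assoc, ← C_add, h i, C_0, add_zero]

theorem eval_transl {n : ℕ} (x : Fin n → ℂ) (p : MvPolynomial (Fin n) ℂ) :
    MvPolynomial.eval 0 (transl x p) = MvPolynomial.eval x p := by
  have h : (MvPolynomial.aeval (0 : Fin n → ℂ)).comp (transl x) =
      (MvPolynomial.aeval x : MvPolynomial (Fin n) ℂ →ₐ[ℂ] ℂ) := by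
    apply MvPolynomial.algHom_ext
    intro i
    simp [transl]
  have h2 := congrArg (fun g => g p) h
  simpa [MvPolynomial.aeval_eq_eval] using h2

/-- the translation as an equivalence -/
noncomputable def translE {n : ℕ} (x : Fin n → ℂ) :
    MvPolynomial (Fin n) ℂ ≃ₐ[ℂ] MvPolynomial (Fin n) ℂ :=
  AlgEquiv.ofAlgHom (transl x) (transl (fun i => -x i))
    (transl_transl _ _ (fun i => by ring)) (transl_transl _ _ (fun i => by ring))

/-- the height of the ideal of the origin -/
theorem height_origin (n : ℕ) :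
    ((MvPolynomial.vanishingIdeal ℂ ({0} : Set (Fin n → ℂ))).height : WithBot ℕ∞) = n := by
  have hdim : ringKrullDim (MvPolynomial (Fin n) ℂ) = n := by
    rw [MvPolynomial.ringKrullDim_of_isNoetherianRing]
    simp
  have : FiniteRingKrullDim (MvPolynomial (Fin n) ℂ) := by
    rw [finiteRingKrullDim_iff_ne_bot_and_top, hdim]
    constructor
    · exact WithBot.natCast_ne_bot n
    · exact ne_of_beq_false rfl
  obtain ⟨p, hp, hh⟩ := Ideal.exists_isMaximal_height (R := MvPolynomial (Fin n) ℂ)
  obtain ⟨x, hx⟩ := MvPolynomial.isMaximal_iff_eq_vanishingIdeal_singleton.mp hp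
  rw [← hdim, ← hh]
  congr 1
  rw [hx]
  have h1 : (MvPolynomial.vanishingIdeal ℂ ({0} : Set (Fin n → ℂ))).comap
      (translE x : MvPolynomial (Fin n) ℂ ≃+* MvPolynomial (Fin n) ℂ) =
      MvPolynomial.vanishingIdeal ℂ ({x} : Set (Fin n → ℂ)) := by
    ext q
    rw [Ideal.mem_comap, mem_vanishingIdeal_singleton_iff, mem_vanishingIdeal_singleton_iff]
    have : (translE x : MvPolynomial (Fin n) ℂ ≃+* MvPolynomial (Fin n) ℂ) q = transl x q := rfl
    rw [this, MvPolynomial.aeval_eq_eval, MvPolynomial.aeval_eq_eval]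
    change MvPolynomial.eval 0 (transl x q) = 0 ↔ MvPolynomial.eval x q = 0
    rw [eval_transl]
  rw [← h1]
  exact (RingEquiv.height_comap _ _).symm

/-- **`n` polynomials in `n + 1` variables vanishing at the origin have another common zero.** -/
theorem exists_common_zero (n : ℕ) (f : Fin n → MvPolynomial (Fin (n + 1)) ℂ)
    (h0 : ∀ i, MvPolynomial.eval 0 (f i) = 0) :
    ∃ x : Fin (n + 1) → ℂ, x ≠ 0 ∧ ∀ i, MvPolynomial.eval x (f i) = 0 := by
  by_contra hc
  push Not at hc
  set I : Ideal (MvPolynomial (Fin (n + 1)) ℂ) := Ideal.span (Set.range f) with hI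
  have hz : MvPolynomial.zeroLocus ℂ I = {0} := by
    ext x
    rw [hI, zeroLocus_span, Set.mem_singleton_iff]
    constructor
    · intro hx
      by_contra hne
      obtain ⟨i, hi⟩ := hc x hne
      apply hi
      have := hx (f i) ⟨i, rfl⟩
      rw [MvPolynomial.aeval_eq_eval] at this
      exact this
    · rintro rfl
      rintro p ⟨i, rfl⟩
      rw [MvPolynomial.aeval_eq_eval]
      exact h0 i
  have hrad : I.radical = MvPolynomial.vanishingIdeal ℂ ({0} : Set (Fin (n + 1) → ℂ)) := by
    rw [← hz]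
    exact (MvPolynomial.vanishingIdeal_zeroLocus_eq_radical I).symm
  set m := MvPolynomial.vanishingIdeal ℂ ({0} : Set (Fin (n + 1) → ℂ)) with hm
  have hmax : m.IsMaximal := MvPolynomial.isMaximal_iff_eq_vanishingIdeal_singleton.mpr ⟨0, rfl⟩
  have hmin : m ∈ I.minimalPrimes := by
    refine ⟨⟨hmax.isPrime, ?_⟩, ?_⟩
    · rw [← hrad]
      exact Ideal.le_radical
    · rintro P ⟨hP, hIP⟩ _
      rw [← hrad]
      exact (Ideal.IsPrime.radical_le_iff hP).mpr hIP
  have h1 := Ideal.height_le_card_of_mem_minimalPrimes_span (Set.finite_range f) hmin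
  have h2 : ((m.height : ℕ∞) : WithBot ℕ∞) = ((n + 1 : ℕ) : WithBot ℕ∞) := height_origin (n + 1)
  have h3 : (Set.range f).ncard ≤ n := by
    have := Set.ncard_image_le (f := f) (s := Set.univ) Set.finite_univ
    rw [Set.image_univ] at this
    simpa using this
  have h4 : m.height = ((n + 1 : ℕ) : ℕ∞) := by
    have : ((m.height : ℕ∞) : WithBot ℕ∞) = (((n + 1 : ℕ) : ℕ∞) : WithBot ℕ∞) := h2
    exact WithBot.coe_injective this
  rw [h4] at h1
  have h5 : n + 1 ≤ (Set.range f).ncard := by exact_mod_cast h1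
  omega

end Pool.Agent.Voisin60
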