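import Pool.Agent.Voisin60.Basic

noncomputable section

namespace Pool.Agent.Voisin60

open Polynomial

/-- The data of an invariant curve through `(P1:P2:1;w)`. -/
structure CData where
  P1 : ℂ
  P2 : ℂ
  w : ℂ
  D1 : ℂ
  D2 : ℂ
  b1 : ℂ
  b2 : ℂ
  g1 : ℂ
  g2 : ℂ

/-- The identity defining the invariant curve. -/
def CData.IsCurve (c : CData) (F : MvPolynomial (Fin 3) ℂ) : Prop :=
  ∀ j k ζ : ℂ, ζ ^ 2 = j ^ 2 + c.b1 * j * k + c.b2 * k ^ 2 →
    MvPolynomial.eval ![j * c.P1 + k * c.D1, j * c.P2 + k * c.D2, ζ] F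
      = c.w ^ 2 * j * (j ^ 2 + c.g1 * j * k + c.g2 * k ^ 2) ^ 2

/-- The base vector. -/
def CData.vec (c : CData) : Fin 4 → ℂ := ![c.P1, c.P2, 1, c.w]

lemma CData.IsCurve.eval_base {c : CData} {F : MvPolynomial (Fin 3) ℂ} (h : c.IsCurve F) :
    MvPolynomial.eval ![c.P1, c.P2, 1] F = c.w ^ 2 := by
  have := h 1 0 1 (by ring)
  simpa using this

lemma CData.IsCurve.onPlane {c : CData} {F : MvPolynomial (Fin 3) ℂ} (h : c.IsCurve F) :
    OnPlane F c.vec := by
  refine ⟨by simp [CData.vec], ?_⟩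
  simp only [CData.vec, Matrix.cons_val]
  rw [h.eval_base]
  ring

/-- Replace `w` by `-w`. -/
def CData.neg (c : CData) : CData := { c with w := -c.w }

/-- Apply `t`. -/
def CData.tw (c : CData) : CData :=
  { c with P1 := -c.P1, P2 := -c.P2, D1 := -c.D1, D2 := -c.D2, w := Complex.I * c.w }

lemma CData.IsCurve.neg {c : CData} {F : MvPolynomial (Fin 3) ℂ} (h : c.IsCurve F) :
    c.neg.IsCurve F := by
  intro j k ζ hz
  have := h j k ζ hz
  simp only [CData.neg, neg_sq]
  exact this

lemma CData.IsCurve.tw {c : CData} {F : MvPolynomial (Fin 3) ℂ} (hodd : IsOddForm F)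
    (h : c.IsCurve F) : c.tw.IsCurve F := by
  intro j k ζ hz
  have := h j k ζ hz
  simp only [CData.tw]
  have e1 : j * -c.P1 + k * -c.D1 = -(j * c.P1 + k * c.D1) := by ring
  have e2 : j * -c.P2 + k * -c.D2 = -(j * c.P2 + k * c.D2) := by ring
  rw [e1, e2, hodd, this, mul_pow, Complex.I_sq]
  ring

/-- In the cases `b2 = 0` the base point lies on a rational curve meeting `Z = W = 0`. -/
lemma CData.IsCurve.triv {c : CData} {F : MvPolynomial (Fin 3) ℂ} (hF : F.IsHomogeneous 5)
    (hodd : IsOddForm F) (h : c.IsCurve F) (hw : c.w ≠ 0)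
    (hne : ¬ (c.D1 = 0 ∧ c.D2 = 0 ∧ c.b1 = 0 ∧ c.b2 = 0 ∧ c.g1 = 0 ∧ c.g2 = 0))
    (hb2 : c.b2 = 0) : Triv (P F c.vec) := by
  -- a curve from the base point to a point with `W = 0`
  have key : ∀ (x : Half) (s t : ℂ), x.Holds F 0 0 → x.Good 0 s → x.Good 0 t →
      x.pt s 0 0 = c.vec → x.pt t 0 0 3 = 0 → Triv (P F c.vec) := by
    intro x s t hx hs ht es et y
    have h1 := one_family hF hx hs ht y
    rw [es] at h1
    have ho : OnPlane F (x.pt t 0 0) := ⟨ht 0 (by simp), hx t 0 0 (by simp) (by simp)⟩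
    have h2 := triv_of_zero hF ho et y
    exact ⟨h1.1.trans h2.1, h1.2.trans h2.2⟩
  by_cases hb1 : c.b1 = 0
  · -- straight line
    have hD : ¬ (c.D1 = 0 ∧ c.D2 = 0) := by
      rintro ⟨d1, d2⟩
      apply hne
      refine ⟨d1, d2, hb1, hb2, ?_⟩
      have hk : ∀ k : ℂ, (1 + c.g1 * k + c.g2 * k ^ 2) ^ 2 = 1 := by
        intro k
        have h1 := h 1 k 1 (by rw [hb1, hb2]; ring)
        rw [d1, d2] at h1
        have h0 := h.eval_base
        simp only [one_mul, mul_zero, add_zero] at h1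
        rw [h0] at h1
        have hw2 : c.w ^ 2 ≠ 0 := pow_ne_zero _ hw
        have : c.w ^ 2 * ((1 + c.g1 * k + c.g2 * k ^ 2) ^ 2 - 1) = 0 := by
          linear_combination -h1
        rcases mul_eq_zero.mp this with h | h
        · exact absurd h hw2
        · linear_combination h
      have a1 := hk 1
      have a2 := hk (-1)
      have a3 := hk 2
      have a4 := hk (-2)
      -- (1+g1k+g2k^2)^2 = 1 at four points
      have r1 : c.g1 * (1 + c.g2) = 0 := by linear_combination (1/4) * a1 - (1/4) * a2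
      have r2 : c.g1 * (1 + 4 * c.g2) = 0 := by linear_combination (1/8) * a3 - (1/8) * a4
      have g1 : c.g1 = 0 := by linear_combination (4/3) * r1 - (1/3) * r2
      rw [g1] at a1 a3
      have g2 : c.g2 = 0 := by
        have b1 : c.g2 * (2 + c.g2) = 0 := by linear_combination a1
        have b2 : c.g2 * (2 + 4 * c.g2) = 0 := by linear_combination (1/4) * a3
        linear_combination (2/3) * b1 - (1/6) * b2
      exact ⟨g1, g2⟩
    refine key
      { p := ![(1 - X) * C c.P1 + X * C c.D1, (1 - X) * C c.P2 + X * C c.D2, 1 - X]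
        q := 0
        w := ![C c.w * (1 - X) * ((1 - X) ^ 2 + C c.g1 * (1 - X) * X + C c.g2 * X ^ 2), 0, 0] }
      0 1 ?_ ?_ ?_ ?_ ?_
    · intro s ζ υ _ _
      have h1 := h (1 - s) s (1 - s) (by rw [hb1, hb2]; ring)
      simp only [Half.pt, Matrix.cons_val, Pi.zero_apply, eval_zero, zero_mul, add_zero, eval_add,
        eval_mul, eval_sub, eval_one, eval_X, eval_C, eval_pow]
      rw [h1]
      ring
    · intro ζ _
      simp [Half.pt]
    · intro ζ _
      simpa [Half.pt] using hD
    · funext i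
      fin_cases i <;> simp [Half.pt, CData.vec]
    · simp [Half.pt]
  · by_cases hD : c.D1 = 0 ∧ c.D2 = 0
    · -- endpoint at `ω = 0`
      have hP : ¬ (c.P1 = 0 ∧ c.P2 = 0) := by
        rintro ⟨p1, p2⟩
        have h0 := h.eval_base
        have h1 := hodd c.P1 c.P2 1
        rw [p1, p2] at h0 h1
        rw [neg_zero] at h1
        have : MvPolynomial.eval ![(0 : ℂ), 0, 1] F = 0 := by
          linear_combination (1/2) * h1
        rw [this] at h0
        exact (pow_ne_zero 2 hw) h0.symm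
      refine key
        { p := ![C c.P1, C c.P2, X ^ 2]
          q := 0
          w := ![C c.w * X * (1 + C (c.g1 / c.b1) * (X ^ 4 - 1)
              + C (c.g2 / c.b1 ^ 2) * (X ^ 4 - 1) ^ 2), 0, 0] }
        1 0 ?_ ?_ ?_ ?_ ?_
      · intro s ζ υ _ _
        have h1 := h 1 ((s ^ 4 - 1) / c.b1) (s ^ 2) (by rw [hb2]; field_simp; ring)
        rw [hD.1, hD.2] at h1
        simp only [one_mul, mul_zero, add_zero] at h1
        simp only [Half.pt, Matrix.cons_val, Pi.zero_apply, eval_zero, zero_mul, add_zero,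
          eval_add, eval_mul, eval_sub, eval_one, eval_X, eval_C, eval_pow]
        rw [h1]
        field_simp
      · intro ζ _
        simp [Half.pt]
      · intro ζ _
        simpa [Half.pt] using hP
      · funext i
        fin_cases i <;> simp [Half.pt, CData.vec]
      · simp [Half.pt]
    · -- endpoint at `ω = ∞`
      refine key
        { p := ![X ^ 4 * C c.P1 + (1 - X ^ 4) * C (c.D1 / c.b1),
            X ^ 4 * C c.P2 + (1 - X ^ 4) * C (c.D2 / c.b1), X ^ 2]
          q := 0
          w := ![C c.w * X ^ 3 * (X ^ 8 + C (c.g1 / c.b1) * X ^ 4 * (1 - X ^ 4)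
              + C (c.g2 / c.b1 ^ 2) * (1 - X ^ 4) ^ 2), 0, 0] }
        1 0 ?_ ?_ ?_ ?_ ?_
      · intro s ζ υ _ _
        have h1 := h (s ^ 4) ((1 - s ^ 4) / c.b1) (s ^ 2) (by rw [hb2]; field_simp; ring)
        simp only [Half.pt, Matrix.cons_val, Pi.zero_apply, eval_zero, zero_mul, add_zero,
          eval_add, eval_mul, eval_sub, eval_one, eval_X, eval_C, eval_pow]
        have e1 : s ^ 4 * c.P1 + (1 - s ^ 4) * (c.D1 / c.b1)
            = s ^ 4 * c.P1 + (1 - s ^ 4) / c.b1 * c.D1 := by ring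
        have e2 : s ^ 4 * c.P2 + (1 - s ^ 4) * (c.D2 / c.b1)
            = s ^ 4 * c.P2 + (1 - s ^ 4) / c.b1 * c.D2 := by ring
        rw [e1, e2, h1]
        field_simp
      · intro ζ _
        simp [Half.pt]
      · intro ζ _
        simp only [Half.pt, Matrix.cons_val, Pi.zero_apply, eval_zero, zero_mul, add_zero,
          eval_add, eval_mul, eval_sub, eval_one, eval_X, eval_C, eval_pow]
        intro h'
        apply hD
        have hb1' := hb1
        refine ⟨?_, ?_⟩
        · have := h'.1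
          simpa [hb1] using this
        · have := h'.2.1
          simpa [hb1] using this
      · funext i
        fin_cases i <;> simp [Half.pt, CData.vec]
      · simp [Half.pt]

end Pool.Agent.Voisin60
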