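import Mathlib

/-! Zero cycles on the self-product of a double plane `W^2 = Z F(X,Y,Z)`, and rational
equivalence by rational families of effective cycles. -/

noncomputable section

namespace Pool.Agent.Voisin60

/-- `u = (X,Y,Z,W)` represents a point of the double plane `W^2 = Z F(X,Y,Z)` in the weighted
projective space `P(1,1,1,3)`. -/
def OnPlane (F : MvPolynomial (Fin 3) ℂ) (u : Fin 4 → ℂ) : Prop :=
  ¬ (u 0 = 0 ∧ u 1 = 0 ∧ u 2 = 0) ∧
    u 3 ^ 2 = u 2 * MvPolynomial.eval ![u 0, u 1, u 2] F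

/-- Representatives of points. -/
abbrev Rep (F : MvPolynomial (Fin 3) ℂ) : Type := {u : Fin 4 → ℂ // OnPlane F u}

/-- The weighted scaling `(X,Y,Z,W) ↦ (cX,cY,cZ,c^3 W)`. -/
def scale (c : ℂ) (u : Fin 4 → ℂ) : Fin 4 → ℂ := ![c * u 0, c * u 1, c * u 2, c ^ 3 * u 3]

/-- Two representatives give the same point if they differ by a weighted scaling. -/
def repSetoid (F : MvPolynomial (Fin 3) ℂ) : Setoid (Rep F) where
  r u v := ∃ c : ℂ, c ≠ 0 ∧ v.1 = scale c u.1
  iseqv :=
    { refl := fun u => ⟨1, one_ne_zero, by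
        funext i; fin_cases i <;> simp [scale]⟩
      symm := fun {u v} h => by
        obtain ⟨c, hc, h⟩ := h
        refine ⟨c⁻¹, inv_ne_zero hc, ?_⟩
        funext i
        rw [h]
        fin_cases i <;> simp [scale, hc]
      trans := fun {u v w} h1 h2 => by
        obtain ⟨c, hc, h1⟩ := h1
        obtain ⟨d, hd, h2⟩ := h2
        refine ⟨d * c, mul_ne_zero hd hc, ?_⟩
        funext i
        rw [h2, h1]
        fin_cases i <;> simp [scale] <;> ring }

/-- The points of the double plane `W^2 = Z F(X,Y,Z)`. -/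
abbrev Pt (F : MvPolynomial (Fin 3) ℂ) : Type := Quotient (repSetoid F)

/-- The degree of a zero cycle. -/
def deg {α : Type} (a : α →₀ ℤ) : ℤ := a.sum fun _ m => m

/-- The exterior product of two zero cycles. -/
def cross {α β : Type} (a : α →₀ ℤ) (b : β →₀ ℤ) : (α × β) →₀ ℤ :=
  a.sum fun x m => b.sum fun y n => Finsupp.single (x, y) (m * n)

/-- A linear form in `X,Y,Z`. -/
def lin (l : Fin 3 → ℂ) (u : Fin 4 → ℂ) : ℂ := l 0 * u 0 + l 1 * u 1 + l 2 * u 2

/-- A rational family of effective zero cycles on the self-product of the double plane,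
parametrised by the complement of a finite set `bad` in the affine line, and contained in the
affine chart where the linear forms `l` (first factor) and `m` (second factor) do not vanish
(representatives are normalised by `l = 1`, `m = 1`): all power sums of polynomial functions
are regular functions of the parameter. -/
structure RatFamily (F : MvPolynomial (Fin 3) ℂ) where
  l : Fin 3 → ℂ
  m : Fin 3 → ℂ
  bad : Finset ℂ
  Z : ℂ → Multiset (Rep F × Rep F)
  normalised : ∀ s, s ∉ bad → ∀ z ∈ Z s, lin l z.1.1 = 1 ∧ lin m z.2.1 = 1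
  regular : ∀ f : MvPolynomial (Fin 4 ⊕ Fin 4) ℂ, ∃ A B : Polynomial ℂ, ∀ s, s ∉ bad →
    B.eval s ≠ 0 ∧
      ((Z s).map fun z => MvPolynomial.eval (Sum.elim z.1.1 z.2.1) f).sum
        = A.eval s / B.eval s

/-- The zero cycle of a finite multiset of points of the self-product. -/
def cyc {F : MvPolynomial (Fin 3) ℂ} (M : Multiset (Rep F × Rep F)) : (Pt F × Pt F) →₀ ℤ :=
  (M.map fun z => Finsupp.single
    ((Quotient.mk (repSetoid F) z.1, Quotient.mk (repSetoid F) z.2) : Pt F × Pt F) (1 : ℤ)).sum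

/-- Zero cycles on the self-product rationally equivalent to zero: the subgroup generated by the
differences of two members of a rational family. -/
def RatEquiv (F : MvPolynomial (Fin 3) ℂ) : AddSubgroup ((Pt F × Pt F) →₀ ℤ) :=
  AddSubgroup.closure {c | ∃ (φ : RatFamily F) (s t : ℂ), s ∉ φ.bad ∧ t ∉ φ.bad ∧
    c = cyc (φ.Z s) - cyc (φ.Z t)}

/-- `F(-X,-Y,Z) = -F(X,Y,Z)`: the curve `F = 0` is invariant under the harmonic homology
with axis `Z = 0` and centre `(0:0:1)`. -/
def IsOddForm (F : MvPolynomial (Fin 3) ℂ) : Prop :=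
  ∀ X Y Z : ℂ, MvPolynomial.eval ![-X, -Y, Z] F = - MvPolynomial.eval ![X, Y, Z] F

/-- The map `(X,Y,Z,W) ↦ (-X,-Y,Z,iW)` on representatives. -/
def tRep {F : MvPolynomial (Fin 3) ℂ} (h : IsOddForm F) (u : Rep F) : Rep F :=
  ⟨![-u.1 0, -u.1 1, u.1 2, Complex.I * u.1 3], by
    refine ⟨?_, ?_⟩
    · intro hu
      apply u.2.1
      simpa using hu
    · have := u.2.2
      simp only [Matrix.cons_val]
      rw [h, mul_pow, Complex.I_sq, this]
      ring⟩

/-- The automorphism `t : (X:Y:Z:W) ↦ (-X:-Y:Z:iW)` of the double plane. -/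
def tPt {F : MvPolynomial (Fin 3) ℂ} (h : IsOddForm F) : Pt F → Pt F :=
  Quotient.map' (s₁ := repSetoid F) (s₂ := repSetoid F) (tRep h) (by
    rintro u v ⟨c, hc, huv⟩
    refine ⟨c, hc, ?_⟩
    funext i
    simp only [tRep]
    rw [huv]
    fin_cases i <;> simp [scale] <;> ring)

end Pool.Agent.Voisin60
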