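import Mathlib
import Pool.Agent.Voisin60.Defs

/-! Existence of invariant curves of genus one through a point of the double plane. -/

set_option autoImplicit false

noncomputable section

namespace Pool.Agent.Voisin60

/-- the exponents with `i + j` odd -/
def oddS (F : MvPolynomial (Fin 3) ℂ) : Finset (Fin 3 →₀ ℕ) :=
  F.support.filter fun d => Odd (d 0 + d 1)

/-- the form `E(X,Y,T)` with `F(X,Y,Z) = E(X,Y,Z^2)` -/
def EE (F : MvPolynomial (Fin 3) ℂ) {A : Type} [CommRing A] (φ : ℂ →+* A) (X Y T : A) : A :=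
  ∑ d ∈ oddS F, φ (F.coeff d) * X ^ d 0 * Y ^ d 1 * T ^ (d 2 / 2)

variable {F : MvPolynomial (Fin 3) ℂ}

theorem EE_map {A B : Type} [CommRing A] [CommRing B] (φ : ℂ →+* A) (ψ : A →+* B) (X Y T : A) :
    ψ (EE F φ X Y T) = EE F (ψ.comp φ) (ψ X) (ψ Y) (ψ T) := by
  simp only [EE, map_sum, map_mul, map_pow, RingHom.comp_apply]

theorem sum5 (hF : F.IsHomogeneous 5) {d : Fin 3 →₀ ℕ} (hd : d ∈ F.support) :
    d 0 + d 1 + d 2 = 5 := by
  have h := hF (MvPolynomial.mem_support_iff.1 hd)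
  rw [Finsupp.weight_apply, Finsupp.sum_fintype _ _ (by simp)] at h
  simpa [Fin.sum_univ_three] using h

theorem sum5' (hF : F.IsHomogeneous 5) {d : Fin 3 →₀ ℕ} (hd : d ∈ oddS F) :
    d 0 + d 1 + 2 * (d 2 / 2) = 5 := by
  have h1 := Finset.mem_filter.1 hd
  have h2 := sum5 hF h1.1
  obtain ⟨k, hk⟩ := h1.2
  omega

theorem EE_hom (hF : F.IsHomogeneous 5) {A : Type} [CommRing A] (φ : ℂ →+* A) (c X Y T : A) :
    EE F φ (c * X) (c * Y) (c ^ 2 * T) = c ^ 5 * EE F φ X Y T := by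
  simp only [EE, Finset.mul_sum]
  apply Finset.sum_congr rfl
  intro d hd
  rw [← sum5' hF hd]
  simp only [mul_pow, pow_add, ← pow_mul]
  ring

theorem eval3 (X Y Z : ℂ) : MvPolynomial.eval ![X, Y, Z] F =
    ∑ d ∈ F.support, F.coeff d * X ^ d 0 * Y ^ d 1 * Z ^ d 2 := by
  rw [MvPolynomial.eval_eq']
  apply Finset.sum_congr rfl
  intro d _
  rw [Fin.prod_univ_three]
  simp only [Matrix.cons_val]
  ring

theorem EE_eval (hF : F.IsHomogeneous 5) (hodd : IsOddForm F) (X Y Z : ℂ) :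
    MvPolynomial.eval ![X, Y, Z] F = EE F (RingHom.id ℂ) X Y (Z ^ 2) := by
  have h1 : MvPolynomial.eval ![X, Y, Z] F =
      (MvPolynomial.eval ![X, Y, Z] F - MvPolynomial.eval ![-X, -Y, Z] F) / 2 := by
    rw [hodd]; ring
  rw [h1, eval3, eval3, ← Finset.sum_sub_distrib, Finset.sum_div, EE, oddS, Finset.sum_filter]
  apply Finset.sum_congr rfl
  intro d hd
  have h2 := sum5 hF hd
  have h3 : (-X) ^ d 0 * (-Y) ^ d 1 = (-1) ^ (d 0 + d 1) * (X ^ d 0 * Y ^ d 1) := by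
    rw [neg_pow X, neg_pow Y, pow_add]; ring
  split_ifs with h
  · have h4 : d 2 = 2 * (d 2 / 2) := by
      obtain ⟨k, hk⟩ := h
      omega
    rw [show F.coeff d * (-X) ^ d 0 * (-Y) ^ d 1 * Z ^ d 2 =
      F.coeff d * ((-X) ^ d 0 * (-Y) ^ d 1) * Z ^ d 2 by ring, h3, h.neg_one_pow, ← pow_mul,
      ← h4, RingHom.id_apply]
    ring
  · rw [show F.coeff d * (-X) ^ d 0 * (-Y) ^ d 1 * Z ^ d 2 =
      F.coeff d * ((-X) ^ d 0 * (-Y) ^ d 1) * Z ^ d 2 by ring, h3,
      (Nat.not_odd_iff_even.1 h).neg_one_pow]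
    ring

open Polynomial in
theorem EE_deg (hF : F.IsHomogeneous 5) {R : Type} [CommRing R] (φ : ℂ →+* R[X])
    (hφ : ∀ c, (φ c).natDegree = 0) (P Q T : R[X])
    (hP : P.natDegree ≤ 1) (hQ : Q.natDegree ≤ 1) (hT : T.natDegree ≤ 2) :
    (EE F φ P Q T).natDegree ≤ 5 := by
  refine natDegree_sum_le_of_forall_le _ _ fun d hd => ?_
  rw [← sum5' hF hd]
  refine natDegree_mul_le_of_le (natDegree_mul_le_of_le (natDegree_mul_le_of_le (hφ _).le
    (natDegree_pow_le_of_le (d 0) hP)) (natDegree_pow_le_of_le (d 1) hQ))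
    (natDegree_pow_le_of_le (d 2 / 2) hT) |>.trans ?_
  omega

open Polynomial in
/-- The existence theorem, from the common zero lemma for 5 polynomials in 6 variables. -/
theorem exist_curve_of
    (hA : ∀ f : Fin 5 → MvPolynomial (Fin 6) ℂ, (∀ i, MvPolynomial.eval 0 (f i) = 0) →
      ∃ x : Fin 6 → ℂ, x ≠ 0 ∧ ∀ i, MvPolynomial.eval x (f i) = 0)
    {F : MvPolynomial (Fin 3) ℂ} (hF : F.IsHomogeneous 5) (hodd : IsOddForm F)
    (P1 P2 w : ℂ) (hP : w ^ 2 = MvPolynomial.eval ![P1, P2, 1] F) :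
    ∃ D1 D2 b1 b2 g1 g2 : ℂ,
      ¬ (D1 = 0 ∧ D2 = 0 ∧ b1 = 0 ∧ b2 = 0 ∧ g1 = 0 ∧ g2 = 0) ∧
      ∀ j k ζ : ℂ, ζ ^ 2 = j ^ 2 + b1 * j * k + b2 * k ^ 2 →
        MvPolynomial.eval ![j * P1 + k * D1, j * P2 + k * D2, ζ] F
          = w ^ 2 * j * (j ^ 2 + g1 * j * k + g2 * k ^ 2) ^ 2 := by
  set V : Fin 6 → MvPolynomial (Fin 6) ℂ := fun i => MvPolynomial.X i with hV
  set φ : ℂ →+* (MvPolynomial (Fin 6) ℂ)[X] :=
    (C : MvPolynomial (Fin 6) ℂ →+* (MvPolynomial (Fin 6) ℂ)[X]).comp MvPolynomial.C with hφ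
  set Φ : (MvPolynomial (Fin 6) ℂ)[X] := EE F φ (C (MvPolynomial.C P1) + C (V 0) * X) (C (MvPolynomial.C P2) + C (V 1) * X)
    (1 + C (V 2) * X + C (V 3) * X ^ 2) -
    C (MvPolynomial.C (w ^ 2)) * (1 + C (V 4) * X + C (V 5) * X ^ 2) ^ 2 with hΦ
  have hmap : ∀ x : Fin 6 → ℂ, Φ.map (MvPolynomial.eval x) =
      EE F C (C P1 + C (x 0) * X) (C P2 + C (x 1) * X) (1 + C (x 2) * X + C (x 3) * X ^ 2) -
      C (w ^ 2) * (1 + C (x 4) * X + C (x 5) * X ^ 2) ^ 2 := by
    intro x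
    have h1 : (mapRingHom (MvPolynomial.eval x)).comp φ = C := by
      ext c
      simp [hφ]
    rw [hΦ, Polynomial.map_sub, ← coe_mapRingHom, EE_map, h1]
    simp [hV]
  have hdeg : Φ.natDegree ≤ 5 := by
    refine (natDegree_sub_le _ _).trans (max_le (EE_deg hF φ (fun c => by simp [hφ]) _ _ _ ?_ ?_ ?_) ?_)
    · compute_degree
    · compute_degree
    · compute_degree
    · refine le_trans (b := 4) ?_ (by norm_num)
      compute_degree
  obtain ⟨x, hx0, hx⟩ := hA (fun i => Φ.coeff ((i : ℕ) + 1)) (by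
    intro i
    rw [← coeff_map, hmap]
    have h1 : EE F C (C P1 + C ((0 : Fin 6 → ℂ) 0) * X) (C P2 + C ((0 : Fin 6 → ℂ) 1) * X)
        (1 + C ((0 : Fin 6 → ℂ) 2) * X + C ((0 : Fin 6 → ℂ) 3) * X ^ 2) =
        (C (EE F (RingHom.id ℂ) P1 P2 1) : ℂ[X]) := by
      rw [EE_map]
      simp
    rw [h1]
    simp only [Pi.zero_apply, map_zero, zero_mul, add_zero, one_pow, mul_one, coeff_sub, coeff_C,
      Nat.succ_ne_zero, if_false, sub_zero])
  have hzero : Φ.map (MvPolynomial.eval x) = 0 := by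
    ext n
    rw [coeff_zero]
    rcases Nat.lt_or_ge 5 n with hn | hn
    · rw [coeff_map, coeff_eq_zero_of_natDegree_lt (lt_of_le_of_lt hdeg hn), map_zero]
    · rcases Nat.eq_zero_or_pos n with rfl | hn0
      · rw [hmap, coeff_zero_eq_eval_zero, eval_sub, ← coe_evalRingHom, EE_map]
        have h1 : (evalRingHom (0 : ℂ)).comp C = RingHom.id ℂ := by
          ext c; simp
        rw [h1]
        simp only [coe_evalRingHom, eval_add, eval_mul, eval_C, eval_X, mul_zero, add_zero,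
          eval_one, eval_pow, ne_eq, OfNat.ofNat_ne_zero, not_false_eq_true, zero_pow, one_pow,
          mul_one]
        have h2 := EE_eval hF hodd P1 P2 1
        rw [one_pow] at h2
        rw [← h2, hP, sub_self]
      · obtain ⟨m, rfl⟩ : ∃ m, n = m + 1 := ⟨n - 1, by omega⟩
        have h1 := hx ⟨m, by omega⟩
        rw [coeff_map]
        exact h1
  have hev : ∀ k : ℂ, EE F (RingHom.id ℂ) (P1 + k * x 0) (P2 + k * x 1) (1 + x 2 * k + x 3 * k ^ 2)
      = w ^ 2 * (1 + x 4 * k + x 5 * k ^ 2) ^ 2 := by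
    intro k
    rw [hmap] at hzero
    have h1 := congrArg (evalRingHom k) hzero
    rw [map_sub, EE_map, map_zero, sub_eq_zero] at h1
    have h2 : (evalRingHom k).comp C = RingHom.id ℂ := by
      ext c; simp
    rw [h2] at h1
    simp only [coe_evalRingHom, eval_add, eval_mul, eval_C, eval_X, eval_one, eval_pow] at h1
    rw [← h1]
    congr 1 <;> ring
  refine ⟨x 0, x 1, x 2, x 3, x 4, x 5, ?_, ?_⟩
  · rintro ⟨h0, h1, h2, h3, h4, h5⟩
    apply hx0
    funext i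
    fin_cases i <;> simpa
  · intro j k ζ hζ
    rw [EE_eval hF hodd, hζ]
    -- polynomial identity in `j`
    set L : ℂ[X] := EE F C (X * C P1 + C (k * x 0)) (X * C P2 + C (k * x 1))
      (X ^ 2 + C (x 2 * k) * X + C (x 3 * k ^ 2)) with hL
    set Rr : ℂ[X] := C (w ^ 2) * X * (X ^ 2 + C (x 4 * k) * X + C (x 5 * k ^ 2)) ^ 2 with hRr
    have hLe : ∀ j : ℂ, L.eval j = EE F (RingHom.id ℂ) (j * P1 + k * x 0) (j * P2 + k * x 1)
        (j ^ 2 + x 2 * j * k + x 3 * k ^ 2) := by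
      intro j
      have h2 : (evalRingHom j).comp C = RingHom.id ℂ := by
        ext c; simp
      rw [hL, ← coe_evalRingHom, EE_map, h2]
      simp only [coe_evalRingHom, eval_add, eval_mul, eval_C, eval_X, eval_pow]
      congr 1
      ring
    have hRe : ∀ j : ℂ, Rr.eval j = w ^ 2 * j * (j ^ 2 + x 4 * j * k + x 5 * k ^ 2) ^ 2 := by
      intro j
      simp only [hRr, eval_add, eval_mul, eval_C, eval_X, eval_pow]
      ring
    have hLR : X * (L - Rr) = 0 := by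
      apply Polynomial.funext
      intro j
      rw [eval_mul, eval_X, eval_sub, hLe, hRe, eval_zero]
      by_cases hj : j = 0
      · rw [hj, zero_mul]
      · have h1 := EE_hom hF (RingHom.id ℂ) j (P1 + k / j * x 0) (P2 + k / j * x 1)
          (1 + x 2 * (k / j) + x 3 * (k / j) ^ 2)
        rw [hev] at h1
        have e1 : j * (P1 + k / j * x 0) = j * P1 + k * x 0 := by field_simp
        have e2 : j * (P2 + k / j * x 1) = j * P2 + k * x 1 := by field_simp
        have e3 : j ^ 2 * (1 + x 2 * (k / j) + x 3 * (k / j) ^ 2) =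
          j ^ 2 + x 2 * j * k + x 3 * k ^ 2 := by field_simp
        rw [e1, e2, e3] at h1
        rw [h1]
        field_simp
        ring
    have hLR2 : L = Rr := by
      rcases mul_eq_zero.1 hLR with h | h
      · exact absurd h X_ne_zero
      · exact sub_eq_zero.1 h
    rw [← hLe, hLR2, hRe]

end Pool.Agent.Voisin60
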