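import Pool.Agent.Voisin60.Exist
import Pool.Agent.KRL.NonzeroZero

namespace Pool.Agent.Voisin60

/-- Through every point with `W ≠ 0` there is an invariant curve. -/
theorem exist_curve {F : MvPolynomial (Fin 3) ℂ} (hF : F.IsHomogeneous 5) (hodd : IsOddForm F)
    (P1 P2 w : ℂ) (_ : w ≠ 0) (hP : w ^ 2 = MvPolynomial.eval ![P1, P2, 1] F) :
    ∃ D1 D2 b1 b2 g1 g2 : ℂ,
      ¬ (D1 = 0 ∧ D2 = 0 ∧ b1 = 0 ∧ b2 = 0 ∧ g1 = 0 ∧ g2 = 0) ∧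
      ∀ j k ζ : ℂ, ζ ^ 2 = j ^ 2 + b1 * j * k + b2 * k ^ 2 →
        MvPolynomial.eval ![j * P1 + k * D1, j * P2 + k * D2, ζ] F
          = w ^ 2 * j * (j ^ 2 + g1 * j * k + g2 * k ^ 2) ^ 2 :=
  exist_curve_of (fun f h => Pool.Agent.KRL.exists_nonzero_zero f h) hF hodd P1 P2 w hP

end Pool.Agent.Voisin60
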