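import Pool.Agent.Voisin60.Reg

noncomputable section

namespace Pool.Agent.Voisin60

open Polynomial

/-- The zero cycle cut out over `s`. -/
def cyc4 (F : MvPolynomial (Fin 3) ℂ) (V H : ℂ[X]) (x y : Half) (s : ℂ) :
    (Pt F × Pt F) →₀ ℤ :=
  ((quad (V.eval s) (H.eval s)).map fun a =>
    Finsupp.single (P F (x.pt s a.1 a.2), P F (y.pt s a.1 a.2)) (1 : ℤ)).sum

lemma exists_lin (S : Finset (Fin 4 → ℂ))
    (hS : ∀ u ∈ S, ¬ (u 0 = 0 ∧ u 1 = 0 ∧ u 2 = 0)) :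
    ∃ l : Fin 3 → ℂ, ∀ u ∈ S, lin l u ≠ 0 := by
  classical
  set Q : ℂ[X] := ∏ u ∈ S, (C (u 0) + C (u 1) * X + C (u 2) * X ^ 2) with hQ
  have hQ0 : Q ≠ 0 := by
    rw [hQ, Finset.prod_ne_zero_iff]
    intro u hu h0
    apply hS u hu
    have c0 := congrArg (fun p => coeff p 0) h0
    have c1 := congrArg (fun p => coeff p 1) h0
    have c2 := congrArg (fun p => coeff p 2) h0
    simp [coeff_X, coeff_C, coeff_X_pow] at c0 c1 c2
    exact ⟨c0, c1, c2⟩
  obtain ⟨ε, hε⟩ : ∃ ε, Q.eval ε ≠ 0 := by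
    by_contra hcon
    push Not at hcon
    exact hQ0 (Polynomial.funext (by simpa using hcon))
  refine ⟨![1, ε, ε ^ 2], fun u hu => ?_⟩
  rw [hQ, eval_prod, Finset.prod_ne_zero_iff] at hε
  have := hε u hu
  simp only [eval_add, eval_mul, eval_C, eval_X, eval_pow] at this
  simp only [lin, Matrix.cons_val]
  intro h
  apply this
  rw [← h]
  ring

/-- The norm of the linear form along half of a family. -/
def nrm (l : Fin 3 → ℂ) (x : Half) (V : ℂ[X]) : ℂ[X] :=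
  (C (l 0) * x.p 0 + C (l 1) * x.p 1 + C (l 2) * x.p 2) ^ 2
    - (C (l 0) * x.q 0 + C (l 1) * x.q 1 + C (l 2) * x.q 2) ^ 2 * V

lemma nrm_eval (l : Fin 3 → ℂ) (x : Half) (V : ℂ[X]) (s ζ υ υ' : ℂ) (hz : ζ ^ 2 = V.eval s) :
    (nrm l x V).eval s = lin l (x.pt s ζ υ) * lin l (x.pt s (-ζ) υ') := by
  simp only [nrm, lin, Half.pt, Matrix.cons_val, eval_sub, eval_pow, eval_add, eval_mul, eval_C]
  rw [← hz]
  ring

lemma lin_ne_zero_of_nrm {l : Fin 3 → ℂ} {x : Half} {V : ℂ[X]} {s ζ υ : ℂ}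
    (hz : ζ ^ 2 = V.eval s) (h : (nrm l x V).eval s ≠ 0) : lin l (x.pt s ζ υ) ≠ 0 := by
  intro h0
  apply h
  rw [nrm_eval l x V s ζ υ 0 hz, h0, zero_mul]

lemma RegFun.inv_lin (V H M : ℂ[X]) (l : Fin 3 → ℂ) (x : Half) :
    RegFun V H (nrm l x V * M) (fun s ζ υ => (lin l (x.pt s ζ υ))⁻¹) := by
  refine ⟨1, M * (C (l 0) * x.p 0 + C (l 1) * x.p 1 + C (l 2) * x.p 2),
    - (M * (C (l 0) * x.q 0 + C (l 1) * x.q 1 + C (l 2) * x.q 2)), 0, 0,
    fun s ζ υ hN hz hu => ?_⟩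
  rw [eval_mul] at hN
  have h1 : (nrm l x V).eval s ≠ 0 := left_ne_zero_of_mul hN
  have h2 : lin l (x.pt s ζ υ) ≠ 0 := lin_ne_zero_of_nrm hz h1
  rw [pow_one, eval_mul, nrm_eval l x V s ζ υ 0 hz]
  field_simp
  simp only [lin, Half.pt, Matrix.cons_val, eval_add, eval_mul, eval_C, eval_neg, eval_zero]
  ring

lemma RegFun.pt (V H N : ℂ[X]) (x : Half) (i : Fin 4) :
    RegFun V H N (fun s ζ υ => x.pt s ζ υ i) := by
  fin_cases i
  · exact (RegFun.poly (x.p 0)).add ((RegFun.poly (x.q 0)).mul RegFun.zeta)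
  · exact (RegFun.poly (x.p 1)).add ((RegFun.poly (x.q 1)).mul RegFun.zeta)
  · exact (RegFun.poly (x.p 2)).add ((RegFun.poly (x.q 2)).mul RegFun.zeta)
  · exact ((RegFun.poly (x.w 0)).add ((RegFun.poly (x.w 1)).mul RegFun.zeta)).add
      ((RegFun.poly (x.w 2)).mul RegFun.ups)

/-- The normalised vector. -/
def normPt (l : Fin 3 → ℂ) (x : Half) (s ζ υ : ℂ) : Fin 4 → ℂ :=
  scale (lin l (x.pt s ζ υ))⁻¹ (x.pt s ζ υ)

lemma RegFun.normPt (V H M : ℂ[X]) (l : Fin 3 → ℂ) (x : Half) (i : Fin 4) :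
    RegFun V H (nrm l x V * M) (fun s ζ υ => normPt l x s ζ υ i) := by
  have h := RegFun.inv_lin V H M l x
  have hp := fun j => RegFun.pt V H (nrm l x V * M) x j
  fin_cases i
  · exact h.mul (hp 0)
  · exact h.mul (hp 1)
  · exact h.mul (hp 2)
  · have h3 : RegFun V H (nrm l x V * M) (fun s ζ υ => (lin l (x.pt s ζ υ))⁻¹ ^ 3) := by
      have := (h.mul h).mul h
      convert this using 4
      ring
    exact h3.mul (hp 3)

lemma lin_scale (l : Fin 3 → ℂ) (c : ℂ) (u : Fin 4 → ℂ) : lin l (scale c u) = c * lin l u := by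
  simp [lin, scale]
  ring

lemma onPlane_of_lin {F : MvPolynomial (Fin 3) ℂ} {V H : ℂ[X]} {x : Half}
    (hx : x.Holds F V H) {l : Fin 3 → ℂ} {s ζ υ : ℂ} (hz : ζ ^ 2 = V.eval s)
    (hu : υ ^ 2 = ζ * H.eval s) (hl : lin l (x.pt s ζ υ) ≠ 0) : OnPlane F (x.pt s ζ υ) := by
  refine ⟨?_, hx s ζ υ hz hu⟩
  rintro ⟨h0, h1, h2⟩
  apply hl
  simp [lin, h0, h1, h2]

lemma good_ne {x : Half} {V : ℂ[X]} {s : ℂ} (h : x.Good V s) {ζ υ : ℂ}
    (hz : ζ ^ 2 = V.eval s) :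
    ¬ (x.pt s ζ υ 0 = 0 ∧ x.pt s ζ υ 1 = 0 ∧ x.pt s ζ υ 2 = 0) := by
  have := h ζ hz
  simpa [Half.pt] using this

lemma exists_chart {x : Half} {V : ℂ[X]} {s t : ℂ} (hs : x.Good V s) (ht : x.Good V t) :
    ∃ l : Fin 3 → ℂ, (nrm l x V).eval s ≠ 0 ∧ (nrm l x V).eval t ≠ 0 := by
  classical
  have e1 : sq (V.eval s) ^ 2 = V.eval s := sq_sq _
  have e2 : (-sq (V.eval s)) ^ 2 = V.eval s := by simp [sq_sq]
  have e3 : sq (V.eval t) ^ 2 = V.eval t := sq_sq _
  have e4 : (-sq (V.eval t)) ^ 2 = V.eval t := by simp [sq_sq]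
  obtain ⟨l, hl⟩ := exists_lin
    {x.pt s (sq (V.eval s)) 0, x.pt s (-sq (V.eval s)) 0,
      x.pt t (sq (V.eval t)) 0, x.pt t (-sq (V.eval t)) 0} (by
    intro u hu
    simp only [Finset.mem_insert, Finset.mem_singleton] at hu
    rcases hu with rfl | rfl | rfl | rfl
    · exact hs _ e1
    · exact hs _ e2
    · exact ht _ e3
    · exact ht _ e4)
  refine ⟨l, ?_, ?_⟩
  · rw [nrm_eval l x V s _ 0 0 e1]
    exact mul_ne_zero (hl _ (by simp)) (hl _ (by simp))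
  · rw [nrm_eval l x V t _ 0 0 e3]
    exact mul_ne_zero (hl _ (by simp)) (hl _ (by simp))

lemma onPlane_normPt {F : MvPolynomial (Fin 3) ℂ} (hF : F.IsHomogeneous 5) {V H : ℂ[X]}
    {x : Half} (hx : x.Holds F V H) {l : Fin 3 → ℂ} {s ζ υ : ℂ} (hz : ζ ^ 2 = V.eval s)
    (hu : υ ^ 2 = ζ * H.eval s) (hn : (nrm l x V).eval s ≠ 0) :
    OnPlane F (normPt l x s ζ υ) :=
  onPlane_scale hF (onPlane_of_lin hx hz hu (lin_ne_zero_of_nrm hz hn))
    (inv_ne_zero (lin_ne_zero_of_nrm hz hn))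

lemma P_normPt {F : MvPolynomial (Fin 3) ℂ} (hF : F.IsHomogeneous 5) {V H : ℂ[X]}
    {x : Half} (hx : x.Holds F V H) {l : Fin 3 → ℂ} {s ζ υ : ℂ} (hz : ζ ^ 2 = V.eval s)
    (hu : υ ^ 2 = ζ * H.eval s) (hn : (nrm l x V).eval s ≠ 0) :
    P F (normPt l x s ζ υ) = P F (x.pt s ζ υ) :=
  P_scale hF (onPlane_of_lin hx hz hu (lin_ne_zero_of_nrm hz hn))
    (inv_ne_zero (lin_ne_zero_of_nrm hz hn))

lemma left_eval {p q : ℂ[X]} {s : ℂ} (h : (p * q).eval s ≠ 0) : p.eval s ≠ 0 := by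
  rw [eval_mul] at h; exact left_ne_zero_of_mul h

lemma right_eval {p q : ℂ[X]} {s : ℂ} (h : (p * q).eval s ≠ 0) : q.eval s ≠ 0 := by
  rw [eval_mul] at h; exact right_ne_zero_of_mul h

/-- The rational family built from two halves. -/
def mkFamily {F : MvPolynomial (Fin 3) ℂ} (hF : F.IsHomogeneous 5) {V H : ℂ[X]} {x y : Half}
    (hx : x.Holds F V H) (hy : y.Holds F V H) (l m : Fin 3 → ℂ)
    (hN : nrm l x V * nrm m y V ≠ 0) : RatFamily F where
  l := l
  m := m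
  bad := (nrm l x V * nrm m y V).roots.toFinset
  Z := fun s => if h : (nrm l x V * nrm m y V).eval s ≠ 0 then
      (quad (V.eval s) (H.eval s)).pmap (fun a ha =>
        ((⟨normPt l x s a.1 a.2, onPlane_normPt hF hx ha.1 ha.2 (left_eval h)⟩ : Rep F),
        (⟨normPt m y s a.1 a.2, onPlane_normPt hF hy ha.1 ha.2 (right_eval h)⟩ : Rep F)))
        quad_mem
    else 0
  normalised := by
    intro s hs z hz
    have h : (nrm l x V * nrm m y V).eval s ≠ 0 := by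
      intro h0
      apply hs
      rw [Multiset.mem_toFinset, mem_roots hN]
      exact h0
    rw [dif_pos h] at hz
    obtain ⟨a, ha, rfl⟩ := Multiset.mem_pmap.mp hz
    have hq := quad_mem a ha
    rw [eval_mul] at h
    refine ⟨?_, ?_⟩
    · simp only [normPt]
      rw [lin_scale, inv_mul_cancel₀]
      exact lin_ne_zero_of_nrm hq.1 (left_ne_zero_of_mul h)
    · simp only [normPt]
      rw [lin_scale, inv_mul_cancel₀]
      exact lin_ne_zero_of_nrm hq.1 (right_ne_zero_of_mul h)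
  regular := by
    intro f
    obtain ⟨A, e, hA⟩ := (RegFun.mvPoly (V := V) (H := H) (N := nrm l x V * nrm m y V) f
      (fun i => Sum.elim (fun j s ζ υ => normPt l x s ζ υ j)
        (fun j s ζ υ => normPt m y s ζ υ j) i) (by
        intro i
        rcases i with j | j
        · exact RegFun.normPt V H _ l x j
        · have := RegFun.normPt V H (nrm l x V) m y j
          rwa [mul_comm] at this)).sum
    refine ⟨A, (nrm l x V * nrm m y V) ^ e, fun s hs => ?_⟩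
    have h : (nrm l x V * nrm m y V).eval s ≠ 0 := by
      intro h0
      apply hs
      rw [Multiset.mem_toFinset, mem_roots hN]
      exact h0
    rw [eval_pow]
    refine ⟨pow_ne_zero _ h, ?_⟩
    rw [← hA s h, dif_pos h, Multiset.map_pmap,
      ← Multiset.pmap_eq_map (fun a => a.1 ^ 2 = V.eval s ∧ a.2 ^ 2 = a.1 * H.eval s)
        _ (quad (V.eval s) (H.eval s)) quad_mem]
    congr 1
    apply Multiset.pmap_congr
    intro a _ ha _
    congr 2
    funext i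
    rcases i with j | j <;> rfl

lemma mkFamily_cyc {F : MvPolynomial (Fin 3) ℂ} (hF : F.IsHomogeneous 5) {V H : ℂ[X]}
    {x y : Half} (hx : x.Holds F V H) (hy : y.Holds F V H) (l m : Fin 3 → ℂ)
    (hN : nrm l x V * nrm m y V ≠ 0) {s : ℂ} (h : (nrm l x V * nrm m y V).eval s ≠ 0) :
    cyc ((mkFamily hF hx hy l m hN).Z s) = cyc4 F V H x y s := by
  unfold cyc cyc4 mkFamily
  simp only
  rw [dif_pos h, Multiset.map_pmap]
  rw [← Multiset.pmap_eq_map (fun a => a.1 ^ 2 = V.eval s ∧ a.2 ^ 2 = a.1 * H.eval s)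
    (fun a => Finsupp.single (P F (x.pt s a.1 a.2), P F (y.pt s a.1 a.2)) (1 : ℤ))
    (quad (V.eval s) (H.eval s)) quad_mem]
  congr 1
  apply Multiset.pmap_congr
  intro a _ ha _
  rw [← P_eq (onPlane_normPt hF hx ha.1 ha.2 (left_eval h)),
    ← P_eq (onPlane_normPt hF hy ha.1 ha.2 (right_eval h)),
    P_normPt hF hx ha.1 ha.2 (left_eval h), P_normPt hF hy ha.1 ha.2 (right_eval h)]

/-- Two members of a family built from halves are rationally equivalent. -/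
theorem family_rel {F : MvPolynomial (Fin 3) ℂ} (hF : F.IsHomogeneous 5) {V H : ℂ[X]}
    {x y : Half} (hx : x.Holds F V H) (hy : y.Holds F V H) {s t : ℂ}
    (xs : x.Good V s) (xt : x.Good V t) (ys : y.Good V s) (yt : y.Good V t) :
    cyc4 F V H x y s - cyc4 F V H x y t ∈ RatEquiv F := by
  obtain ⟨l, ls, lt⟩ := exists_chart xs xt
  obtain ⟨m, ms, mt⟩ := exists_chart ys yt
  have es : (nrm l x V * nrm m y V).eval s ≠ 0 := by
    rw [eval_mul]; exact mul_ne_zero ls ms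
  have et : (nrm l x V * nrm m y V).eval t ≠ 0 := by
    rw [eval_mul]; exact mul_ne_zero lt mt
  have hN : nrm l x V * nrm m y V ≠ 0 := by
    intro h0; rw [h0] at es; simp at es
  apply AddSubgroup.subset_closure
  refine ⟨mkFamily hF hx hy l m hN, s, t, ?_, ?_, ?_⟩
  · simp only [mkFamily, Multiset.mem_toFinset, mem_roots hN]
    exact es
  · simp only [mkFamily, Multiset.mem_toFinset, mem_roots hN]
    exact et
  · rw [mkFamily_cyc hF hx hy l m hN es, mkFamily_cyc hF hx hy l m hN et]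

end Pool.Agent.Voisin60
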