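import Pool.Agent.Voisin60.Pair
import Pool.Agent.Voisin60.ExistFinal

noncomputable section

namespace Pool.Agent.Voisin60

variable {F : MvPolynomial (Fin 3) ℂ}

/-- `t` applied to a curve datum. -/
lemma vec_tw (c : CData) : c.tw.vec = tv c.vec := by
  funext i
  fin_cases i <;> simp [CData.vec, CData.tw, tv]

/-- Every point is trivial together with its `t`-orbit, or carries a genus one curve. -/
lemma classify (hF : F.IsHomogeneous 5) (hodd : IsOddForm F) (x : Pt F) :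
    (Triv x ∧ Triv (tPt hodd x) ∧ Triv (tPt hodd (tPt hodd x)) ∧
        Triv (tPt hodd (tPt hodd (tPt hodd x)))) ∨
      ∃ c : CData, c.IsCurve F ∧ c.b2 ≠ 0 ∧ x = P F c.vec := by
  obtain ⟨u, hu, rfl⟩ := exists_rep x
  have o1 := onPlane_tv hodd hu
  have o2 := onPlane_tv hodd o1
  have o3 := onPlane_tv hodd o2
  by_cases h3 : u 3 = 0
  · left
    rw [tPt_P hodd hu, tPt_P hodd o1, tPt_P hodd o2]
    refine ⟨triv_of_zero hF hu h3, triv_of_zero hF o1 ?_, triv_of_zero hF o2 ?_,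
      triv_of_zero hF o3 ?_⟩ <;> simp [tv, h3]
  · have h2 : u 2 ≠ 0 := by
      intro h
      have := hu.2
      rw [h, zero_mul] at this
      exact h3 (pow_eq_zero_iff (two_ne_zero) |>.mp this)
    -- normalise `Z = 1`
    set v : Fin 4 → ℂ := scale (u 2)⁻¹ u with hv
    have ov : OnPlane F v := onPlane_scale hF hu (inv_ne_zero h2)
    have ev : P F v = P F u := P_scale hF hu (inv_ne_zero h2)
    have v2 : v 2 = 1 := by simp [hv, scale, h2]
    have v3 : v 3 ≠ 0 := by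
      simp [hv, scale, h2, h3]
    have hP : (v 3) ^ 2 = MvPolynomial.eval ![v 0, v 1, 1] F := by
      have := ov.2
      rw [v2, one_mul] at this
      exact this
    obtain ⟨D1, D2, b1, b2, g1, g2, hne, hcur⟩ := exist_curve hF hodd (v 0) (v 1) (v 3) v3 hP
    let c : CData := ⟨v 0, v 1, v 3, D1, D2, b1, b2, g1, g2⟩
    have hc : c.IsCurve F := hcur
    have hvec : c.vec = v := by
      funext i
      fin_cases i <;> simp [CData.vec, c, v2]
    by_cases hb : b2 = 0
    · left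
      have hI : Complex.I ≠ 0 := Complex.I_ne_zero
      have key : ∀ d : CData, d.IsCurve F → d.w ≠ 0 →
          ¬ (d.D1 = 0 ∧ d.D2 = 0 ∧ d.b1 = 0 ∧ d.b2 = 0 ∧ d.g1 = 0 ∧ d.g2 = 0) → d.b2 = 0 →
          Triv (P F d.vec) := fun d h1 h2 h3 h4 => h1.triv hF hodd h2 h3 h4
      have n1 : ¬ (c.tw.D1 = 0 ∧ c.tw.D2 = 0 ∧ c.tw.b1 = 0 ∧ c.tw.b2 = 0 ∧ c.tw.g1 = 0 ∧
          c.tw.g2 = 0) := by
        simpa [CData.tw, c] using hne
      have n2 : ¬ (c.tw.tw.D1 = 0 ∧ c.tw.tw.D2 = 0 ∧ c.tw.tw.b1 = 0 ∧ c.tw.tw.b2 = 0 ∧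
          c.tw.tw.g1 = 0 ∧ c.tw.tw.g2 = 0) := by
        simpa [CData.tw, c] using hne
      have n3 : ¬ (c.tw.tw.tw.D1 = 0 ∧ c.tw.tw.tw.D2 = 0 ∧ c.tw.tw.tw.b1 = 0 ∧
          c.tw.tw.tw.b2 = 0 ∧ c.tw.tw.tw.g1 = 0 ∧ c.tw.tw.tw.g2 = 0) := by
        simpa [CData.tw, c] using hne
      rw [tPt_P hodd hu, tPt_P hodd o1, tPt_P hodd o2]
      have e1 : P F (tv u) = P F c.tw.vec := by
        rw [vec_tw, hvec, ← tPt_P hodd hu, ← tPt_P hodd ov, ev]
      have e2 : P F (tv (tv u)) = P F c.tw.tw.vec := by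
        rw [vec_tw, vec_tw, hvec, ← tPt_P hodd o1, ← tPt_P hodd (onPlane_tv hodd ov),
          ← tPt_P hodd hu, ← tPt_P hodd ov, ev]
      have e3 : P F (tv (tv (tv u))) = P F c.tw.tw.tw.vec := by
        rw [vec_tw, vec_tw, vec_tw, hvec, ← tPt_P hodd o2,
          ← tPt_P hodd (onPlane_tv hodd (onPlane_tv hodd ov)), ← tPt_P hodd o1,
          ← tPt_P hodd (onPlane_tv hodd ov), ← tPt_P hodd hu, ← tPt_P hodd ov, ev]
      rw [e1, e2, e3, ← ev, ← hvec]
      refine ⟨key c hc v3 hne hb, key c.tw (hc.tw hodd) ?_ n1 hb,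
        key c.tw.tw ((hc.tw hodd).tw hodd) ?_ n2 hb,
        key c.tw.tw.tw (((hc.tw hodd).tw hodd).tw hodd) ?_ n3 hb⟩ <;>
      simp [CData.tw, c, v3]
    · right
      exact ⟨c, hc, hb, by rw [hvec, ev]⟩

/-- The orbit class is constant. -/
theorem orbit_const (hF : F.IsHomogeneous 5) (hodd : IsOddForm F) (x y : Pt F) :
    (4 : ℕ) • G hodd x y = (16 : ℕ) • e (o F) (o F) := by
  have two_x : ∀ y : Pt F, (2 : ℕ) • (e (o F) y + e (o F) (tPt hodd (tPt hodd y)))
      = (4 : ℕ) • e (o F) (o F) := by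
    intro y
    obtain ⟨u, hu, rfl⟩ := exists_rep y
    have h := (line_rel hF hu (o F)).2
    have : tPt hodd (tPt hodd (P F u)) = P F (neg3 u) := by
      rw [tPt_P hodd hu, tPt_P hodd (onPlane_tv hodd hu)]
      congr 1
      funext i
      fin_cases i <;> simp [tv, neg3]
      rw [← mul_assoc, Complex.I_mul_I]; ring
    rw [this]
    exact h
  have two_y : ∀ y : Pt F, (2 : ℕ) • (e y (o F) + e (tPt hodd (tPt hodd y)) (o F))
      = (4 : ℕ) • e (o F) (o F) := by
    intro y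
    obtain ⟨u, hu, rfl⟩ := exists_rep y
    have h := (line_rel hF hu (o F)).1
    have : tPt hodd (tPt hodd (P F u)) = P F (neg3 u) := by
      rw [tPt_P hodd hu, tPt_P hodd (onPlane_tv hodd hu)]
      congr 1
      funext i
      fin_cases i <;> simp [tv, neg3]
      rw [← mul_assoc, Complex.I_mul_I]; ring
    rw [this]
    exact h
  rcases classify hF hodd x with ⟨x0, x1, x2, x3⟩ | ⟨c, hc, hcb, rfl⟩
  · have A := two_x y
    have B := two_x (tPt hodd y)
    rw [G, nsmul_add, nsmul_add, nsmul_add, (x0 _).1, (x1 _).1, (x2 _).1, (x3 _).1]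
    calc _ = (2 : ℕ) • ((2 : ℕ) • (e (o F) y + e (o F) (tPt hodd (tPt hodd y))))
          + (2 : ℕ) • ((2 : ℕ) • (e (o F) (tPt hodd y)
            + e (o F) (tPt hodd (tPt hodd (tPt hodd y))))) := by
            simp only [succ_nsmul, zero_nsmul]; abel
      _ = _ := by
            rw [A, B]
            simp only [succ_nsmul, zero_nsmul]; abel
  · rcases classify hF hodd y with ⟨y0, y1, y2, y3⟩ | ⟨d, hd, hdb, rfl⟩
    · have A := two_y (P F c.vec)
      have B := two_y (tPt hodd (P F c.vec))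
      rw [G, nsmul_add, nsmul_add, nsmul_add, (y0 _).2, (y1 _).2, (y2 _).2, (y3 _).2]
      calc _ = (2 : ℕ) • ((2 : ℕ) • (e (P F c.vec) (o F)
              + e (tPt hodd (tPt hodd (P F c.vec))) (o F)))
            + (2 : ℕ) • ((2 : ℕ) • (e (tPt hodd (P F c.vec)) (o F)
              + e (tPt hodd (tPt hodd (tPt hodd (P F c.vec)))) (o F))) := by
              simp only [succ_nsmul, zero_nsmul]; abel
        _ = _ := by
              rw [A, B]
              simp only [succ_nsmul, zero_nsmul]; abel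
    · exact pair_rel hF hodd hc hd hcb hdb

end Pool.Agent.Voisin60
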