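import Pool.Agent.Voisin60.Curve

noncomputable section

namespace Pool.Agent.Voisin60

open Polynomial

/-- The vector `(X,Y,Z,W) ↦ (-X,-Y,Z,iW)`. -/
def tv (u : Fin 4 → ℂ) : Fin 4 → ℂ := ![-u 0, -u 1, u 2, Complex.I * u 3]

lemma onPlane_tv {F : MvPolynomial (Fin 3) ℂ} (hodd : IsOddForm F) {u : Fin 4 → ℂ}
    (hu : OnPlane F u) : OnPlane F (tv u) := (tRep hodd ⟨u, hu⟩).2

lemma tPt_P {F : MvPolynomial (Fin 3) ℂ} (hodd : IsOddForm F) {u : Fin 4 → ℂ}
    (hu : OnPlane F u) : tPt hodd (P F u) = P F (tv u) := by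
  rw [P_eq hu, P_eq (onPlane_tv hodd hu)]
  rfl

/-- The sum over the orbit of the pair. -/
def G {F : MvPolynomial (Fin 3) ℂ} (hodd : IsOddForm F) (x y : Pt F) : CH F :=
  e x y + e (tPt hodd x) (tPt hodd y) + e (tPt hodd (tPt hodd x)) (tPt hodd (tPt hodd y))
    + e (tPt hodd (tPt hodd (tPt hodd x))) (tPt hodd (tPt hodd (tPt hodd y)))

/-- The half with `n k = K(n)`: the point `(n P + K D : ζ ; w (n^2+g1 n K+g2 K^2) υ)`. -/
def CData.half (c : CData) (J K : ℂ[X]) : Half where
  p := ![J * C c.P1 + K * C c.D1, J * C c.P2 + K * C c.D2, 0]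
  q := ![0, 0, 1]
  w := ![0, 0, C c.w * (J ^ 2 + C c.g1 * J * K + C c.g2 * K ^ 2)]

/-- The polynomial `β`. -/
def CData.V (c : CData) (J K : ℂ[X]) : ℂ[X] := J ^ 2 + C c.b1 * J * K + C c.b2 * K ^ 2

lemma CData.half_holds {c : CData} {F : MvPolynomial (Fin 3) ℂ} (h : c.IsCurve F)
    (J K : ℂ[X]) : (c.half J K).Holds F (c.V J K) J := by
  intro s ζ υ hz hu
  have h1 := h (J.eval s) (K.eval s) ζ (by
    rw [hz]; simp [CData.V])
  simp only [CData.half, Half.pt, Matrix.cons_val, eval_add, eval_mul, eval_C, eval_zero,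
    eval_one, zero_mul, one_mul, zero_add, add_zero, eval_pow]
  rw [h1, mul_pow, hu]
  ring

lemma CData.half_good {c : CData} {J K : ℂ[X]} {s : ℂ} (hv : (c.V J K).eval s ≠ 0)
    (V : ℂ[X]) (hV : V = c.V J K) : (c.half J K).Good V s := by
  intro ζ hz h'
  have : ζ = 0 := by simpa [CData.half, Half.pt] using h'.2.2
  rw [this, hV] at hz
  apply hv
  rw [← hz]; ring

lemma CData.half_pt_base (c : CData) (J K : ℂ[X]) (s ζ υ : ℂ) (hK : K.eval s = 0) :
    (c.half J K).pt s ζ υ
      = ![J.eval s * c.P1, J.eval s * c.P2, ζ, c.w * (J.eval s) ^ 2 * υ] := by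
  funext i
  fin_cases i <;> simp [CData.half, Half.pt, hK]

/-- Over a parameter with `K = 0`, `J = r ≠ 0` the four points form the `t`-orbit. -/
lemma quad_base {F : MvPolynomial (Fin 3) ℂ} (hF : F.IsHomogeneous 5) (hodd : IsOddForm F)
    {c d : CData} (hc : c.IsCurve F) (hd : d.IsCurve F) {J K K' : ℂ[X]} {V : ℂ[X]} {s : ℂ}
    (hK : K.eval s = 0) (hK' : K'.eval s = 0) (hJ : J.eval s ≠ 0)
    (hV : V = c.V J K) :
    ((quad (V.eval s) (J.eval s)).map fun a =>
        e (P F ((c.half J K).pt s a.1 a.2)) (P F ((d.half J K').pt s a.1 a.2))).sum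
      = G hodd (P F c.vec) (P F d.vec) := by
  set r := J.eval s with hr
  have v1 : r ^ 2 = V.eval s := by
    rw [hV]; simp [CData.V, hK, hr]
  rw [quad_sum_eq (r := r) (ρ := r) (ρ' := Complex.I * r) v1 (by ring)
    (by rw [mul_pow, Complex.I_sq]; ring)]
  simp only [CData.half_pt_base _ _ _ _ _ _ hK, CData.half_pt_base _ _ _ _ _ _ hK', ← hr]
  have oc := hc.onPlane
  have od := hd.onPlane
  have t1 : ∀ (f : CData), f.IsCurve F →
      P F ![r * f.P1, r * f.P2, r, f.w * r ^ 2 * r] = P F f.vec := by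
    intro f hf
    rw [← P_scale hF hf.onPlane hJ]
    congr 1
    funext i
    fin_cases i <;> simp [scale, CData.vec] <;> ring
  have t2 : ∀ (f : CData), f.IsCurve F →
      P F ![r * f.P1, r * f.P2, r, f.w * r ^ 2 * -r] = P F (tv (tv f.vec)) := by
    intro f hf
    rw [← P_scale hF (onPlane_tv hodd (onPlane_tv hodd hf.onPlane)) hJ]
    congr 1
    funext i
    fin_cases i <;> simp [scale, CData.vec, tv] <;> ring_nf
    rw [Complex.I_sq]; ring
  have t3 : ∀ (f : CData), f.IsCurve F →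
      P F ![r * f.P1, r * f.P2, -r, f.w * r ^ 2 * -(Complex.I * r)] = P F (tv f.vec) := by
    intro f hf
    rw [← P_scale hF (onPlane_tv hodd hf.onPlane) (neg_ne_zero.mpr hJ)]
    congr 1
    funext i
    fin_cases i <;> simp [scale, CData.vec, tv] <;> ring
  have t4 : ∀ (f : CData), f.IsCurve F →
      P F ![r * f.P1, r * f.P2, -r, f.w * r ^ 2 * (Complex.I * r)] = P F (tv (tv (tv f.vec))) := by
    intro f hf
    rw [← P_scale hF (onPlane_tv hodd (onPlane_tv hodd (onPlane_tv hodd hf.onPlane)))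
      (neg_ne_zero.mpr hJ)]
    congr 1
    funext i
    fin_cases i <;> simp [scale, CData.vec, tv]
    linear_combination (f.w * r ^ 3 * Complex.I) * Complex.I_sq
  rw [t1 c hc, t1 d hd, t2 c hc, t2 d hd, t3 c hc, t3 d hd, t4 c hc, t4 d hd]
  rw [G]
  simp only [tPt_P hodd oc, tPt_P hodd od, tPt_P hodd (onPlane_tv hodd oc),
    tPt_P hodd (onPlane_tv hodd od), tPt_P hodd (onPlane_tv hodd (onPlane_tv hodd oc)),
    tPt_P hodd (onPlane_tv hodd (onPlane_tv hodd od))]
  abel

/-- `16` times the base class. -/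
lemma four_triv {F : MvPolynomial (Fin 3) ℂ} {x y : Pt F} (hx : Triv x) (hy : Triv y) :
    (4 : ℕ) • e x y = (4 : ℕ) • e (o F) (o F) := by
  rw [(hx y).1, (hy (o F)).2]

/-- Over a parameter with `J = 0` all points have `W = 0`. -/
lemma quad_end {F : MvPolynomial (Fin 3) ℂ} (hF : F.IsHomogeneous 5)
    {c d : CData} (hc : c.IsCurve F) (hd : d.IsCurve F) {J K K' : ℂ[X]} {V : ℂ[X]} {s : ℂ}
    (hJ : J.eval s = 0) (hv : V.eval s ≠ 0)
    (hV : V = c.V J K) (hV' : V = d.V J K') :
    (4 : ℕ) • ((quad (V.eval s) (J.eval s)).map fun a =>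
        e (P F ((c.half J K).pt s a.1 a.2)) (P F ((d.half J K').pt s a.1 a.2))).sum
      = (16 : ℕ) • e (o F) (o F) := by
  have r1 : sq (V.eval s) ^ 2 = V.eval s := sq_sq _
  have r2 : (-sq (V.eval s)) ^ 2 = V.eval s := by simp [sq_sq]
  rw [quad_sum_eq (r := sq (V.eval s)) (ρ := 0) (ρ' := 0) r1 (by rw [hJ]; ring)
    (by rw [hJ]; ring)]
  have tr : ∀ (f : CData), f.IsCurve F → ∀ L : ℂ[X], V = f.V J L → ∀ ζ : ℂ,
      ζ ^ 2 = V.eval s → Triv (P F ((f.half J L).pt s ζ 0)) := by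
    intro f hf L hL ζ hz
    have g := CData.half_good (c := f) (J := J) (K := L) (s := s) (by rw [← hL]; exact hv) V hL
    have hh := CData.half_holds hf J L
    rw [← hL] at hh
    refine triv_of_zero hF ⟨g ζ hz, hh s ζ 0 hz (by rw [hJ]; ring)⟩ ?_
    simp [CData.half, Half.pt]
  have a1 := four_triv (tr c hc K hV _ r1) (tr d hd K' hV' _ r1)
  have a2 := four_triv (tr c hc K hV _ r2) (tr d hd K' hV' _ r2)
  simp only [neg_zero]
  rw [nsmul_add, nsmul_add, nsmul_add, a1, a2]
  simp only [succ_nsmul, zero_nsmul]; abel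

/-- The conic family, when the first asymptotic coordinate of the base point is nonzero. -/
lemma pair_main {F : MvPolynomial (Fin 3) ℂ} (hF : F.IsHomogeneous 5)
    {c d : CData} (hc : c.IsCurve F) (hd : d.IsCurve F) (r r' κ κ' C0 : ℂ)
    (hr : r ^ 2 = c.b2) (hr' : r' ^ 2 = d.b2) (hb : c.b2 ≠ 0) (hb' : d.b2 ≠ 0)
    (hκ : 2 * c.b2 * κ = c.b1) (hκ' : 2 * d.b2 * κ' = d.b1)
    (hC : C0 = c.b2 * κ ^ 2 - d.b2 * κ' ^ 2) {n : ℂ}
    (K K' : ℂ[X]) (hK : K = -C κ * X + C (1 / (2 * r)) * (1 + C C0 * X ^ 2))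
    (hK' : K' = -C κ' * X + C (1 / (2 * r')) * (1 - C C0 * X ^ 2))
    (hn : (c.V X K).eval n ≠ 0) :
    (4 : ℕ) • ((quad ((c.V X K).eval n) ((X : ℂ[X]).eval n)).map fun a =>
        e (P F ((c.half X K).pt n a.1 a.2)) (P F ((d.half X K').pt n a.1 a.2))).sum
      = (16 : ℕ) • e (o F) (o F) := by
  have hr0 : r ≠ 0 := by
    rintro rfl; apply hb; rw [← hr]; ring
  have hr0' : r' ≠ 0 := by
    rintro rfl; apply hb'; rw [← hr']; ring
  have hVV : c.V X K = d.V X K' := by
    apply Polynomial.funext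
    intro s
    simp only [CData.V, hK, hK', eval_add, eval_mul, eval_pow, eval_X, eval_C, eval_neg,
      eval_one, eval_sub]
    rw [← hκ, ← hκ', ← hr, ← hr']
    rw [← hr, ← hr'] at hC
    rw [hC]
    field_simp
    ring
  have h0e : (c.V X K).eval 0 = 1 / 4 := by
    simp only [CData.V, hK, eval_add, eval_mul, eval_pow, eval_X, eval_C, eval_neg,
      eval_one]
    rw [← hr]
    field_simp
    ring
  have h0 : (c.V X K).eval 0 ≠ 0 := by rw [h0e]; norm_num
  have hdh := CData.half_holds hd X K'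
  rw [← hVV] at hdh
  have hfam := family_eq hF (CData.half_holds hc X K) hdh (s := n) (t := 0)
    (CData.half_good hn _ rfl) (CData.half_good h0 _ rfl)
    (CData.half_good (by rw [← hVV]; exact hn) _ hVV)
    (CData.half_good (by rw [← hVV]; exact h0) _ hVV)
  rw [hfam]
  exact quad_end hF hc hd (by simp) h0 rfl hVV

/-- Both points have `b2 ≠ 0`. -/
theorem pair_rel {F : MvPolynomial (Fin 3) ℂ} (hF : F.IsHomogeneous 5) (hodd : IsOddForm F)
    {c d : CData} (hc : c.IsCurve F) (hd : d.IsCurve F) (hb : c.b2 ≠ 0) (hb' : d.b2 ≠ 0) :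
    (4 : ℕ) • G hodd (P F c.vec) (P F d.vec) = (16 : ℕ) • e (o F) (o F) := by
  set r := sq c.b2 with hr_def
  have hr : r ^ 2 = c.b2 := sq_sq _
  obtain ⟨κ, hκ⟩ : ∃ κ, 2 * c.b2 * κ = c.b1 := ⟨c.b1 / (2 * c.b2), by field_simp⟩
  obtain ⟨κ', hκ'⟩ : ∃ κ', 2 * d.b2 * κ' = d.b1 := ⟨d.b1 / (2 * d.b2), by field_simp⟩
  have hr0 : r ≠ 0 := by
    intro h; apply hb; rw [← hr, h]; ring
  -- the generic case
  have gen : ∀ r' : ℂ, r' ^ 2 = d.b2 → r * κ + r' * κ' ≠ 0 →
      (4 : ℕ) • G hodd (P F c.vec) (P F d.vec) = (16 : ℕ) • e (o F) (o F) := by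
    intro r' hr' ha
    have hr0' : r' ≠ 0 := by
      intro h; apply hb'; rw [← hr', h]; ring
    set C0 := c.b2 * κ ^ 2 - d.b2 * κ' ^ 2 with hC
    have hC' : C0 = (r * κ + r' * κ') * (r * κ - r' * κ') := by
      rw [hC, ← hr, ← hr']; ring
    set n := (r * κ + r' * κ')⁻¹ with hn
    have hn0 : n ≠ 0 := inv_ne_zero ha
    have hna : n * (r * κ + r' * κ') = 1 := by rw [hn]; exact inv_mul_cancel₀ ha
    set K : ℂ[X] := -C κ * X + C (1 / (2 * r)) * (1 + C C0 * X ^ 2) with hK
    set K' : ℂ[X] := -C κ' * X + C (1 / (2 * r')) * (1 - C C0 * X ^ 2) with hK'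
    have eK : K.eval n = 0 := by
      simp only [hK, eval_add, eval_mul, eval_pow, eval_X, eval_C, eval_neg, eval_one]
      rw [hC']
      field_simp
      linear_combination (n * (r * κ - r' * κ') - 1) * hna
    have eK' : K'.eval n = 0 := by
      simp only [hK', eval_add, eval_mul, eval_pow, eval_X, eval_C, eval_neg, eval_one, eval_sub]
      rw [hC']
      field_simp
      linear_combination (- n * (r * κ - r' * κ') - 1) * hna
    have hv : (c.V X K).eval n ≠ 0 := by
      simp only [CData.V, eval_add, eval_mul, eval_pow, eval_X, eval_C]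
      rw [eK]
      simpa using hn0
    have h1 := pair_main hF hc hd r r' κ κ' C0 hr hr' hb hb' hκ hκ' hC K K' hK hK' hv
    rw [quad_base hF hodd hc hd eK eK' (by simpa using hn0) rfl] at h1
    exact h1
  obtain ⟨r', hr'⟩ : ∃ r' : ℂ, r' ^ 2 = d.b2 := ⟨sq d.b2, sq_sq _⟩
  by_cases ha : r * κ + r' * κ' = 0
  · by_cases ha' : r * κ + -r' * κ' = 0
    · -- both asymptotic coordinates vanish
      have hr0' : r' ≠ 0 := by
        intro h; apply hb'; rw [← hr', h]; ring
      have k0 : κ = 0 := by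
        have : r * κ = 0 := by linear_combination (1/2) * ha + (1/2) * ha'
        exact (mul_eq_zero.mp this).resolve_left hr0
      have k0' : κ' = 0 := by
        have : r' * κ' = 0 := by linear_combination (1/2) * ha - (1/2) * ha'
        exact (mul_eq_zero.mp this).resolve_left hr0'
      have hb1 : c.b1 = 0 := by rw [← hκ, k0]; ring
      have hb1' : d.b1 = 0 := by rw [← hκ', k0']; ring
      -- first step: `J = 1`
      set L : ℂ[X] := C (1 / (2 * r)) * X with hL
      set L' : ℂ[X] := C (1 / (2 * r')) * X with hL'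
      have hVV : c.V 1 L = d.V 1 L' := by
        apply Polynomial.funext
        intro s
        simp only [CData.V, hL, hL', eval_add, eval_mul, eval_pow, eval_X, eval_C, eval_one]
        rw [hb1, hb1', ← hr, ← hr']
        field_simp
        ring
      have v0 : (c.V 1 L).eval 0 ≠ 0 := by
        simp [CData.V, hL]
      have v1e : (c.V 1 L).eval 1 = 5 / 4 := by
        simp only [CData.V, hL, eval_add, eval_mul, eval_pow, eval_X, eval_C, eval_one]
        rw [hb1, ← hr]
        field_simp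
        ring
      have v1 : (c.V 1 L).eval 1 ≠ 0 := by rw [v1e]; norm_num
      have hdh := CData.half_holds hd 1 L'
      rw [← hVV] at hdh
      have hfam := family_eq hF (CData.half_holds hc 1 L) hdh (s := 0) (t := 1)
        (CData.half_good v0 _ rfl) (CData.half_good v1 _ rfl)
        (CData.half_good (by rw [← hVV]; exact v0) _ hVV)
        (CData.half_good (by rw [← hVV]; exact v1) _ hVV)
      rw [quad_base hF hodd hc hd (by simp [hL]) (by simp [hL']) (by simp) rfl] at hfam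
      rw [hfam]
      -- second step
      set K : ℂ[X] := -C (0 : ℂ) * X + C (1 / (2 * r)) * (1 + C (0 : ℂ) * X ^ 2) with hK
      set K' : ℂ[X] := -C (0 : ℂ) * X + C (1 / (2 * r')) * (1 - C (0 : ℂ) * X ^ 2) with hK'
      have eK : K.eval 1 = L.eval 1 := by simp [hK, hL]
      have eK' : K'.eval 1 = L'.eval 1 := by simp [hK', hL']
      have eV : (c.V X K).eval 1 = (c.V 1 L).eval 1 := by
        simp [CData.V, eK]
      have h1 := pair_main hF hc hd r r' 0 0 0 hr hr' hb hb' (by rw [hb1]; ring)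
        (by rw [hb1']; ring) (by ring) K K' hK hK' (n := 1) (by rw [eV]; exact v1)
      rw [← h1, eV]
      have eX : (X : ℂ[X]).eval 1 = (1 : ℂ[X]).eval 1 := by simp
      rw [eX]
      congr 3
      funext a
      have p1 : (c.half 1 L).pt 1 a.1 a.2 = (c.half X K).pt 1 a.1 a.2 := by
        funext i
        fin_cases i <;> simp [CData.half, Half.pt, eK]
      have p2 : (d.half 1 L').pt 1 a.1 a.2 = (d.half X K').pt 1 a.1 a.2 := by
        funext i
        fin_cases i <;> simp [CData.half, Half.pt, eK']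
      rw [p1, p2]
    · exact gen (-r') (by rw [neg_sq]; exact hr') ha'
  · exact gen r' hr' ha

end Pool.Agent.Voisin60
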