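import Pool.Agent.Voisin60.Defs

noncomputable section

namespace Pool.Agent.Voisin60

open Polynomial

/-- A chosen square root. -/
def sq (z : ℂ) : ℂ :=
  Classical.choose (IsAlgClosed.exists_pow_nat_eq z (n := 2) (by norm_num))

lemma sq_sq (z : ℂ) : sq z ^ 2 = z :=
  Classical.choose_spec (IsAlgClosed.exists_pow_nat_eq z (n := 2) (by norm_num))

/-- The four solutions of `ζ^2 = v`, `υ^2 = ζ h`, with multiplicity. -/
def quad (v h : ℂ) : Multiset (ℂ × ℂ) :=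
  {(sq v, sq (sq v * h)), (sq v, -sq (sq v * h)),
    (-sq v, sq (-sq v * h)), (-sq v, -sq (-sq v * h))}

lemma quad_mem {v h : ℂ} : ∀ a ∈ quad v h, a.1 ^ 2 = v ∧ a.2 ^ 2 = a.1 * h := by
  intro a ha
  simp only [quad, Multiset.insert_eq_cons, Multiset.mem_cons, Multiset.mem_singleton] at ha
  rcases ha with rfl | rfl | rfl | rfl
  · exact ⟨sq_sq _, sq_sq _⟩
  · exact ⟨sq_sq _, by simp [sq_sq]⟩
  · exact ⟨by simp [sq_sq], sq_sq _⟩
  · exact ⟨by simp [sq_sq], by simp [sq_sq]⟩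

lemma quad_sum (v h : ℂ) {M : Type*} [AddCommMonoid M] (g : ℂ × ℂ → M) :
    ((quad v h).map g).sum = g (sq v, sq (sq v * h)) + (g (sq v, -sq (sq v * h)) +
      (g (-sq v, sq (-sq v * h)) + g (-sq v, -sq (-sq v * h)))) := by
  simp [quad]

/-- `φ(s,ζ,υ)` is, on `ζ^2 = V`, `υ^2 = ζ H`, a combination of `1, ζ, υ, ζυ` with coefficients
rational in `s`, with denominator a power of `N`. -/
def RegFun (V H N : ℂ[X]) (φ : ℂ → ℂ → ℂ → ℂ) : Prop :=
  ∃ (e : ℕ) (a b c d : ℂ[X]), ∀ s ζ υ : ℂ, N.eval s ≠ 0 → ζ ^ 2 = V.eval s →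
    υ ^ 2 = ζ * H.eval s →
    N.eval s ^ e * φ s ζ υ = a.eval s + b.eval s * ζ + c.eval s * υ + d.eval s * (ζ * υ)

variable {V H N : ℂ[X]}

lemma RegFun.const (c : ℂ) : RegFun V H N (fun _ _ _ => c) :=
  ⟨0, C c, 0, 0, 0, fun s ζ υ _ _ _ => by simp⟩

lemma RegFun.poly (p : ℂ[X]) : RegFun V H N (fun s _ _ => p.eval s) :=
  ⟨0, p, 0, 0, 0, fun s ζ υ _ _ _ => by simp⟩

lemma RegFun.zeta : RegFun V H N (fun _ ζ _ => ζ) :=
  ⟨0, 0, 1, 0, 0, fun s ζ υ _ _ _ => by simp⟩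

lemma RegFun.ups : RegFun V H N (fun _ _ υ => υ) :=
  ⟨0, 0, 0, 1, 0, fun s ζ υ _ _ _ => by simp⟩

lemma RegFun.add {φ ψ : ℂ → ℂ → ℂ → ℂ} (h1 : RegFun V H N φ) (h2 : RegFun V H N ψ) :
    RegFun V H N (fun s ζ υ => φ s ζ υ + ψ s ζ υ) := by
  obtain ⟨e, a, b, c, d, h1⟩ := h1
  obtain ⟨e', a', b', c', d', h2⟩ := h2
  refine ⟨e + e', N ^ e' * a + N ^ e * a', N ^ e' * b + N ^ e * b', N ^ e' * c + N ^ e * c',
    N ^ e' * d + N ^ e * d', fun s ζ υ hN hz hu => ?_⟩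
  have h1' := h1 s ζ υ hN hz hu
  have h2' := h2 s ζ υ hN hz hu
  simp only [eval_add, eval_mul, eval_pow]
  linear_combination (N.eval s) ^ e' * h1' + (N.eval s) ^ e * h2'

lemma RegFun.mul {φ ψ : ℂ → ℂ → ℂ → ℂ} (h1 : RegFun V H N φ) (h2 : RegFun V H N ψ) :
    RegFun V H N (fun s ζ υ => φ s ζ υ * ψ s ζ υ) := by
  obtain ⟨e, a, b, c, d, h1⟩ := h1
  obtain ⟨e', a', b', c', d', h2⟩ := h2
  refine ⟨e + e', a * a' + b * b' * V + (c * d' + d * c') * V * H,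
    a * b' + b * a' + c * c' * H + d * d' * V * H,
    a * c' + c * a' + b * d' * V + d * b' * V,
    a * d' + d * a' + b * c' + c * b', fun s ζ υ hN hz hu => ?_⟩
  have h1' := h1 s ζ υ hN hz hu
  have h2' := h2 s ζ υ hN hz hu
  simp only [eval_add, eval_mul]
  have key : N.eval s ^ (e + e') * (φ s ζ υ * ψ s ζ υ)
      = (N.eval s ^ e * φ s ζ υ) * (N.eval s ^ e' * ψ s ζ υ) := by ring
  rw [key, h1', h2']
  rw [← hz]
  have hu' : υ ^ 2 - ζ * H.eval s = 0 := by rw [hu]; ring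
  linear_combination (c.eval s * c'.eval s + (c.eval s * d'.eval s + d.eval s * c'.eval s) * ζ
    + d.eval s * d'.eval s * ζ ^ 2) * hu'

/-- The sum of a regular function over the four solutions is a rational function of `s`. -/
lemma RegFun.sum {φ : ℂ → ℂ → ℂ → ℂ} (h : RegFun V H N φ) :
    ∃ (A : ℂ[X]) (e : ℕ), ∀ s, N.eval s ≠ 0 →
      ((quad (V.eval s) (H.eval s)).map fun a => φ s a.1 a.2).sum
        = A.eval s / (N.eval s) ^ e := by
  obtain ⟨e, a, b, c, d, h⟩ := h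
  refine ⟨4 * a, e, fun s hN => ?_⟩
  rw [eq_div_iff (pow_ne_zero _ hN), quad_sum]
  have m := @quad_mem (V.eval s) (H.eval s)
  have h1 := m (sq (V.eval s), sq (sq (V.eval s) * H.eval s)) (by simp [quad])
  have h2 := m (sq (V.eval s), -sq (sq (V.eval s) * H.eval s)) (by simp [quad])
  have h3 := m (-sq (V.eval s), sq (-sq (V.eval s) * H.eval s)) (by simp [quad])
  have h4 := m (-sq (V.eval s), -sq (-sq (V.eval s) * H.eval s)) (by simp [quad])
  have g1 := h s _ _ hN h1.1 h1.2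
  have g2 := h s _ _ hN h2.1 h2.2
  have g3 := h s _ _ hN h3.1 h3.2
  have g4 := h s _ _ hN h4.1 h4.2
  simp only at g1 g2 g3 g4 ⊢
  simp only [eval_mul, eval_ofNat]
  linear_combination g1 + g2 + g3 + g4

lemma RegFun.mvPoly {σ : Type*} (f : MvPolynomial σ ℂ) (g : σ → ℂ → ℂ → ℂ → ℂ)
    (hg : ∀ i, RegFun V H N (g i)) :
    RegFun V H N (fun s ζ υ => MvPolynomial.eval (fun i => g i s ζ υ) f) := by
  induction f using MvPolynomial.induction_on with
  | C a => simpa using RegFun.const a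
  | add p q hp hq => simpa using hp.add hq
  | mul_X p i hp => simpa using hp.mul (hg i)

/-- Half of a family: `X,Y,Z` are `p_i + q_i ζ`, `W = w_0 + w_1 ζ + w_2 υ`. -/
structure Half where
  p : Fin 3 → ℂ[X]
  q : Fin 3 → ℂ[X]
  w : Fin 3 → ℂ[X]

/-- The vector at the parameters `s, ζ, υ`. -/
def Half.pt (x : Half) (s ζ υ : ℂ) : Fin 4 → ℂ :=
  ![(x.p 0).eval s + (x.q 0).eval s * ζ, (x.p 1).eval s + (x.q 1).eval s * ζ,
    (x.p 2).eval s + (x.q 2).eval s * ζ,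
    (x.w 0).eval s + (x.w 1).eval s * ζ + (x.w 2).eval s * υ]

/-- The equation of the double plane holds along the family. -/
def Half.Holds (x : Half) (F : MvPolynomial (Fin 3) ℂ) (V H : ℂ[X]) : Prop :=
  ∀ s ζ υ : ℂ, ζ ^ 2 = V.eval s → υ ^ 2 = ζ * H.eval s →
    (x.pt s ζ υ 3) ^ 2 = x.pt s ζ υ 2 *
      MvPolynomial.eval ![x.pt s ζ υ 0, x.pt s ζ υ 1, x.pt s ζ υ 2] F

/-- `(X,Y,Z)` is nonzero over `s`. -/
def Half.Good (x : Half) (V : ℂ[X]) (s : ℂ) : Prop :=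
  ∀ ζ : ℂ, ζ ^ 2 = V.eval s →
    ¬ (x.pt s ζ 0 0 = 0 ∧ x.pt s ζ 0 1 = 0 ∧ x.pt s ζ 0 2 = 0)

lemma base_onPlane (F : MvPolynomial (Fin 3) ℂ) : OnPlane F ![1, 0, 0, 0] := by
  constructor
  · intro h; simpa using h.1
  · simp

open Classical in
/-- The point of the double plane with representative `u` (a base point if `u` does not satisfy
the equation). -/
def P (F : MvPolynomial (Fin 3) ℂ) (u : Fin 4 → ℂ) : Pt F :=
  if h : OnPlane F u then Quotient.mk (repSetoid F) ⟨u, h⟩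
  else Quotient.mk (repSetoid F) ⟨![1, 0, 0, 0], base_onPlane F⟩

lemma P_eq {F : MvPolynomial (Fin 3) ℂ} {u : Fin 4 → ℂ} (h : OnPlane F u) :
    P F u = Quotient.mk (repSetoid F) ⟨u, h⟩ := by
  unfold P
  rw [dif_pos h]

lemma eval_smul_hom {F : MvPolynomial (Fin 3) ℂ} (hF : F.IsHomogeneous 5) (c X Y Z : ℂ) :
    MvPolynomial.eval ![c * X, c * Y, c * Z] F = c ^ 5 * MvPolynomial.eval ![X, Y, Z] F := by
  rw [MvPolynomial.eval_eq', MvPolynomial.eval_eq', Finset.mul_sum]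
  refine Finset.sum_congr rfl fun d hd => ?_
  have hdeg := hF (MvPolynomial.mem_support_iff.mp hd)
  have h5 : d 0 + d 1 + d 2 = 5 := by
    rw [← hdeg, Finsupp.weight_apply, Finsupp.sum_fintype _ _ (by simp)]
    simp [Fin.sum_univ_three]
  simp only [Fin.prod_univ_three, Matrix.cons_val]
  rw [← h5]
  ring

lemma onPlane_scale {F : MvPolynomial (Fin 3) ℂ} (hF : F.IsHomogeneous 5) {u : Fin 4 → ℂ}
    (h : OnPlane F u) {c : ℂ} (hc : c ≠ 0) : OnPlane F (scale c u) := by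
  constructor
  · intro h'
    apply h.1
    simpa [scale, hc] using h'
  · have := h.2
    simp only [scale, Matrix.cons_val]
    rw [eval_smul_hom hF, mul_pow, this]
    ring

lemma P_scale {F : MvPolynomial (Fin 3) ℂ} (hF : F.IsHomogeneous 5) {u : Fin 4 → ℂ}
    (h : OnPlane F u) {c : ℂ} (hc : c ≠ 0) : P F (scale c u) = P F u := by
  rw [P_eq h, P_eq (onPlane_scale hF h hc)]
  symm
  exact Quotient.sound ⟨c, hc, rfl⟩

end Pool.Agent.Voisin60
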